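import Pool.Agent.Results.MP_6e34ef_nt.FewViolators
import Pool.Agent.R479.DB.Lim
import Pool.Agent.R479.DK.Main

/-!
# The uniform abc inequality for the approximations of a given number in all fields of degree `n`

Let `L` be a field of characteristic zero with a metric, for instance the real, complex or `p`-adic
numbers. For `ξ` in `L` we consider ALL number fields `K` of degree `n`, all `x` in `K` and all
embeddings of `K` into `L` for which the image of `x` is near `ξ`, at distance at most `H ^ (-τ)`,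
where `H` is the height of the triple `(x, 1 - x, -1)`. Outside a set of `ξ` of small Hausdorff
dimension all but finitely many of them satisfy the uniform abc inequality, with a constant which
depends neither on the field nor on `x`.
-/

set_option autoImplicit false

namespace Pool.Agent.Results.MP_6e34ef_nt.ApproximationsAllFields

open NumberField IsDedekindDomain Filter Topology MeasureTheory
open Pool.Agent.Results.MP_6e34ef_nt.FewViolators (height conductor rootDisc Viol expo)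
open scoped ENNReal NNReal

/-- a number field `K` inside the algebraic closure of `ℚ`, an element `x` of `K` and an embedding of
`K` into `L` -/
abbrev Pt (L : Type) [Field L] : Type :=
  Σ K : {K : IntermediateField ℚ (AlgebraicClosure ℚ) // NumberField K}, K.1 × (K.1 →+* L)

/-- `log H(x, 1 - x, -1)` -/
noncomputable def ht {L : Type} [Field L] (p : Pt L) : ℝ :=
  haveI : NumberField p.1.1 := p.1.2
  height ![p.2.1, 1 - p.2.1, -1]

/-- `log δ_K + log N(x, 1 - x, -1)` -/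
noncomputable def dn {L : Type} [Field L] (p : Pt L) : ℝ :=
  haveI : NumberField p.1.1 := p.1.2
  rootDisc p.1.1 + conductor ![p.2.1, 1 - p.2.1, -1]

/-- the image of `x` in `L` -/
noncomputable def im {L : Type} [Field L] (p : Pt L) : L := p.2.2 p.2.1

/-- `K` has degree `n`, and `x ≠ 0, 1` -/
def Deg (L : Type) [Field L] (n : ℕ) : Set (Pt L) :=
  {p | Module.finrank ℚ p.1.1 = n ∧ p.2.1 ≠ 0 ∧ p.2.1 ≠ 1}

/-- the approximations of `ξ` of exponent `τ` in the fields of degree `n` -/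
def Near {L : Type} [Field L] [MetricSpace L] (n : ℕ) (τ : ℝ) (ξ : L) : Set (Pt L) :=
  {p | p ∈ Deg L n ∧ dist ξ (im p) ≤ Real.exp (-τ * ht p)}

section

variable {L : Type} [Field L]

/-- the members of `Deg L n` that violate the inequality -/
def Exc (L : Type) [Field L] (n : ℕ) (κ c : ℝ) : Set (Pt L) :=
  {p | p ∈ Deg L n ∧ c + κ * dn p < ht p}

theorem height_nonneg {K : Type} [Field K] [NumberField K] (x : K) :
    0 ≤ height ![x, 1 - x, -1] := by
  unfold height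
  refine div_nonneg (add_nonneg (Finset.sum_nonneg fun w _ => mul_nonneg (Nat.cast_nonneg _) ?_)
    (finsum_nonneg fun v => ?_)) (Nat.cast_nonneg _)
  · refine Real.log_nonneg ?_
    refine le_max_of_le_right (le_max_of_le_right ?_)
    have h : w (-1 : K) = 1 := by
      rw [show (-1 : K) = -(1 : K) from rfl]
      have h2 : w (-1 : K) = w 1 := w.1.map_neg 1
      rw [h2, map_one]
    simp [h]
  · refine Real.log_nonneg ?_
    refine le_max_of_le_right (le_max_of_le_right ?_)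
    simp

theorem ht_nonneg (p : Pt L) : 0 ≤ ht p := by
  have : NumberField p.1.1 := p.1.2
  exact height_nonneg p.2.1

theorem card_emb [CharZero L] (K : Type) [Field K] [NumberField K] :
    Finite (K →+* L) ∧ Nat.card (K →+* L) ≤ Module.finrank ℚ K := by
  classical
  have hinj : Function.Injective (fun σ : K →+* L =>
      (algebraMap L (AlgebraicClosure L)).comp σ) := by
    intro σ σ' h
    ext x
    have h1 := RingHom.congr_fun h x
    exact (algebraMap L (AlgebraicClosure L)).injective h1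
  have : CharZero (AlgebraicClosure L) := charZero_of_injective_algebraMap
    (algebraMap L (AlgebraicClosure L)).injective
  have : Finite (K →+* AlgebraicClosure L) := Finite.of_fintype _
  refine ⟨Finite.of_injective _ hinj, ?_⟩
  refine (Nat.card_le_card_of_injective _ hinj).trans ?_
  rw [Nat.card_eq_fintype_card, NumberField.Embeddings.card]

theorem count [CharZero L] {n : ℕ} {κ c s : ℝ}
    (H : ∀ δ : ℝ, 0 < δ → ∃ M : ℝ, ∀ B : ℝ, 1 ≤ B → (Viol n κ c B).Finite ∧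
      ((Viol n κ c B).ncard : ℝ) ≤ M * B ^ (s + δ)) (ε : ℝ) (hε : 0 < ε) :
    ∃ C : ℝ, ∀ B : ℝ, 1 ≤ B → {p | p ∈ Exc L n κ c ∧ Real.exp (ht p) ≤ B}.Finite ∧
      ({p | p ∈ Exc L n κ c ∧ Real.exp (ht p) ≤ B}.ncard : ℝ) ≤ C * B ^ (s + ε) := by
  classical
  obtain ⟨M, hM⟩ := H ε hε
  refine ⟨n * M, fun B hB => ?_⟩
  obtain ⟨hfin, hcard⟩ := hM B hB
  set f : Pt L → IntermediateField ℚ (AlgebraicClosure ℚ) × AlgebraicClosure ℚ :=
    fun p => (p.1.1, (p.2.1 : AlgebraicClosure ℚ)) with hf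
  set S : Set (Pt L) := {p | p ∈ Exc L n κ c ∧ Real.exp (ht p) ≤ B} with hS
  have himg : f '' S ⊆ Viol n κ c B := by
    rintro _ ⟨⟨⟨K, hK⟩, x, σ⟩, ⟨⟨⟨h1, h2, h3⟩, h4⟩, h5⟩, rfl⟩
    refine ⟨hK, x, rfl, h1, h2, h3, ?_, h4⟩
    rw [Real.le_log_iff_exp_le (by linarith)]
    exact h5
  have hfib : ∀ p ∈ S, ∃ g : (p.1.1 →+* L) → Pt L, S ∩ f ⁻¹' {f p} ⊆ Set.range g := by
    rintro ⟨⟨K, hK⟩, x, σ⟩ -
    refine ⟨fun σ' => ⟨⟨K, hK⟩, x, σ'⟩, ?_⟩
    rintro ⟨⟨K', hK'⟩, x', σ'⟩ ⟨-, h⟩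
    rw [Set.mem_preimage, Set.mem_singleton_iff, hf, Prod.mk.injEq] at h
    obtain ⟨h1, h2⟩ := h
    dsimp only at h1 h2
    subst h1
    have h3 : x' = x := Subtype.ext h2
    subst h3
    exact ⟨σ', rfl⟩
  have hfib2 : ∀ p ∈ S, (S ∩ f ⁻¹' {f p}).Finite ∧ (S ∩ f ⁻¹' {f p}).ncard ≤ n := by
    intro p hp
    obtain ⟨g, hg⟩ := hfib p hp
    have : NumberField p.1.1 := p.1.2
    obtain ⟨h1, h2⟩ := card_emb (L := L) p.1.1
    have h3 : (Set.range g).Finite := Set.finite_range g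
    refine ⟨h3.subset hg, (Set.ncard_le_ncard hg h3).trans ?_⟩
    have h4 : (Set.range g).ncard ≤ Nat.card (p.1.1 →+* L) := by
      rw [← Set.image_univ, ← Set.ncard_univ]
      exact Set.ncard_image_le Set.finite_univ
    refine h4.trans (h2.trans ?_)
    exact hp.1.1.1.le
  have hSfin : S.Finite := by
    refine Set.Finite.of_finite_fibers f (hfin.subset himg) ?_
    rintro _ ⟨p, hp, rfl⟩
    exact (hfib2 p hp).1
  refine ⟨hSfin, ?_⟩
  have h1 : hSfin.toFinset.card ≤ n * (hSfin.toFinset.image f).card := by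
    refine Finset.card_le_mul_card_image _ _ fun a ha => ?_
    obtain ⟨p, hp, rfl⟩ := Finset.mem_image.1 ha
    rw [Set.Finite.mem_toFinset] at hp
    have h2 := (hfib2 p hp).2
    rw [Set.ncard_eq_toFinset_card _ (hfib2 p hp).1] at h2
    refine le_trans (Finset.card_le_card ?_) h2
    intro q hq
    rw [Finset.mem_filter, Set.Finite.mem_toFinset] at hq
    rw [Set.Finite.mem_toFinset]
    exact ⟨hq.1, hq.2⟩
  have h2 : (hSfin.toFinset.image f).card ≤ (Viol n κ c B).ncard := by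
    rw [Set.ncard_eq_toFinset_card _ hfin]
    refine Finset.card_le_card ?_
    intro q hq
    obtain ⟨p, hp, rfl⟩ := Finset.mem_image.1 hq
    rw [Set.Finite.mem_toFinset] at hp ⊢
    exact himg ⟨p, hp, rfl⟩
  have h3 : S.ncard ≤ n * (Viol n κ c B).ncard := by
    rw [Set.ncard_eq_toFinset_card _ hSfin]
    exact h1.trans (Nat.mul_le_mul_left _ h2)
  calc (S.ncard : ℝ) ≤ ((n * (Viol n κ c B).ncard : ℕ) : ℝ) := by exact_mod_cast h3
    _ = n * ((Viol n κ c B).ncard : ℝ) := by push_cast; ring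
    _ ≤ n * (M * B ^ (s + ε)) := mul_le_mul_of_nonneg_left hcard (Nat.cast_nonneg _)
    _ = n * M * B ^ (s + ε) := by ring

theorem dim_exc [CharZero L] [MetricSpace L] {n : ℕ} {κ c s τ : ℝ} (hs : 0 ≤ s) (hτ : 0 < τ)
    (H : ∀ δ : ℝ, 0 < δ → ∃ M : ℝ, ∀ B : ℝ, 1 ≤ B → (Viol n κ c B).Finite ∧
      ((Viol n κ c B).ncard : ℝ) ≤ M * B ^ (s + δ)) :
    dimH {ξ : L | {p | p ∈ Near n τ ξ ∧ c + κ * dn p < ht p}.Infinite} ≤
      ENNReal.ofReal (s / τ) := by
  classical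
  have hcnt := count (L := L) H
  have hcble : (Exc L n κ c).Countable := by
    obtain ⟨C, hC⟩ := hcnt 1 one_pos
    have h1 : Exc L n κ c ⊆ ⋃ B : ℕ, {p | p ∈ Exc L n κ c ∧ Real.exp (ht p) ≤ (B : ℝ) + 1} := by
      intro p hp
      obtain ⟨B, hB⟩ := exists_nat_ge (Real.exp (ht p))
      exact Set.mem_iUnion.2 ⟨B, hp, by linarith⟩
    refine Set.Countable.mono h1 (Set.countable_iUnion fun B => ?_)
    have hB : (1 : ℝ) ≤ (B : ℝ) + 1 := by
      have : (0 : ℝ) ≤ (B : ℝ) := Nat.cast_nonneg _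
      linarith
    exact (hC ((B : ℝ) + 1) hB).1.countable
  have : Countable (Exc L n κ c) := hcble.to_subtype
  have h1 := Pool.Agent.R479.DB.dimH_approx (X := L) (K := Exc L n κ c) (fun p => im p.1)
    Set.univ (fun p => Real.exp (ht p.1)) (fun p => Real.one_le_exp (ht_nonneg _)) hs hτ (by
      intro ε hε
      obtain ⟨C, hC⟩ := hcnt ε hε
      refine ⟨C, fun B hB => ?_⟩
      obtain ⟨hfin, hle⟩ := hC B hB
      have himg : (Subtype.val : Exc L n κ c → Pt L) ''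
          {p | p ∈ Set.univ ∧ Real.exp (ht p.1) ≤ B} =
          {p | p ∈ Exc L n κ c ∧ Real.exp (ht p) ≤ B} := by
        ext t
        constructor
        · rintro ⟨u, ⟨-, hu⟩, rfl⟩
          exact ⟨u.2, hu⟩
        · rintro ⟨ht1, htX⟩
          exact ⟨⟨t, ht1⟩, ⟨trivial, htX⟩, rfl⟩
      have hinj : Set.InjOn (Subtype.val : Exc L n κ c → Pt L)
          {p | p ∈ Set.univ ∧ Real.exp (ht p.1) ≤ B} := Subtype.val_injective.injOn
      refine ⟨Set.Finite.of_finite_image (by rw [himg]; exact hfin) hinj, ?_⟩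
      rw [← hinj.ncard_image, himg]
      exact hle)
  refine le_trans (dimH_mono ?_) h1
  intro ξ hξ
  simp only [Set.mem_ofPred_eq] at hξ ⊢
  intro hfin
  apply hξ
  refine (hfin.image (Subtype.val : Exc L n κ c → Pt L)).subset ?_
  rintro p ⟨⟨hp1, hp2⟩, hp3⟩
  refine ⟨⟨p, hp1, hp3⟩, ⟨trivial, ?_⟩, rfl⟩
  refine hp2.trans (le_of_eq ?_)
  rw [← Real.exp_mul]
  ring_nf

theorem dn_nonneg (p : Pt L) : 0 ≤ dn p := by
  have : NumberField p.1.1 := p.1.2
  unfold dn rootDisc FewViolators.conductor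
  refine add_nonneg (div_nonneg (Real.log_nonneg ?_) (Nat.cast_nonneg _))
    (div_nonneg (finsum_nonneg fun v => finsum_nonneg fun _ => Real.log_natCast_nonneg _)
      (Nat.cast_nonneg _))
  rw [← Int.cast_abs]
  exact_mod_cast Int.one_le_abs (NumberField.discr_ne_zero p.1.1)

theorem near_mono [MetricSpace L] {n : ℕ} {τ τ' : ℝ} (h : τ' ≤ τ) (ξ : L) :
    Near n τ ξ ⊆ Near n τ' ξ := by
  rintro p ⟨h1, h2⟩
  refine ⟨h1, h2.trans (Real.exp_le_exp.2 ?_)⟩
  nlinarith [ht_nonneg p]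

end

/-- the `ξ` in `L` such that for some `c` infinitely many approximations of `ξ` of exponent `τ` in the
fields of degree `n` satisfy `log H > κ (log δ_K + log N) + c` -/
def Bad (L : Type) [Field L] [MetricSpace L] (n : ℕ) (κ τ : ℝ) : Set L :=
  {ξ | ∃ c : ℝ, {p | p ∈ Near n τ ξ ∧ κ * dn p + c < ht p}.Infinite}

/-- the `ξ` in `L` such that for some `n ≥ 2` and some `τ > 0` there are no `κ`, `C` with
`log H ≤ κ (log δ_K + log N) + C` for all approximations of `ξ` of exponent `τ` in all fields of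
degree `n` -/
def WeakBad (L : Type) [Field L] [MetricSpace L] : Set L :=
  {ξ | ∃ n : ℕ, 2 ≤ n ∧ ∃ τ : ℝ, 0 < τ ∧ ∀ κ C : ℝ, ∃ p ∈ Near n τ ξ, κ * dn p + C < ht p}

theorem bad_mono {L : Type} [Field L] [MetricSpace L] {n : ℕ} {κ κ' τ τ' : ℝ} (h : κ' ≤ κ)
    (h' : τ' ≤ τ) : Bad L n κ τ ⊆ Bad L n κ' τ' := by
  rintro ξ ⟨c, hc⟩
  refine ⟨c, hc.mono ?_⟩
  rintro p ⟨h1, h2⟩
  refine ⟨near_mono h' ξ h1, lt_of_le_of_lt ?_ h2⟩
  nlinarith [dn_nonneg p]

theorem dim_bad (L : Type) [Field L] [CharZero L] [MetricSpace L] {n : ℕ} {κ e τ : ℝ}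
    (hκ : 0 < κ) (he : 0 ≤ e) (hτ : 0 < τ)
    (H : ∀ c δ : ℝ, 0 < δ → ∃ M : ℝ, ∀ B : ℝ, 1 ≤ B → (Viol n κ c B).Finite ∧
      ((Viol n κ c B).ncard : ℝ) ≤ M * B ^ ((n : ℝ) * e / κ + δ)) :
    dimH (Bad L n κ τ) ≤ ENNReal.ofReal (n * e / (κ * τ)) := by
  have h1 : Bad L n κ τ ⊆
      ⋃ j : ℕ, {ξ : L | {p | p ∈ Near n τ ξ ∧ -(j : ℝ) + κ * dn p < ht p}.Infinite} := by
    rintro ξ ⟨c, hc⟩
    obtain ⟨j, hj⟩ := exists_nat_ge (-c)
    refine Set.mem_iUnion.2 ⟨j, hc.mono ?_⟩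
    rintro p ⟨h1, h2⟩
    exact ⟨h1, by linarith⟩
  refine (dimH_mono h1).trans ?_
  rw [dimH_iUnion]
  refine iSup_le fun j => ?_
  have h2 := dim_exc (L := L) (c := -(j : ℝ)) (s := (n : ℝ) * e / κ) (by positivity) hτ
    (H (-(j : ℝ)))
  refine h2.trans (le_of_eq ?_)
  rw [div_div]

theorem null_real {s : Set ℝ} (h : dimH s < 1) : volume s = 0 := by
  have h1 := hausdorffMeasure_of_dimH_lt (d := 1) (s := s) (by simpa using h)
  rw [NNReal.coe_one, hausdorffMeasure_real] at h1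
  exact h1

theorem null_complex {s : Set ℂ} (h : dimH s < 2) : volume s = 0 := by
  set f : ℂ → ℝ × ℝ := ⇑Complex.measurableEquivRealProd with hf
  have hlip : LipschitzWith 1 f := by
    refine LipschitzWith.of_dist_le_mul fun z w => ?_
    rw [NNReal.coe_one, one_mul, Prod.dist_eq, Complex.dist_eq]
    refine max_le ?_ ?_
    · rw [Real.dist_eq]
      exact Complex.abs_re_le_norm (z - w)
    · rw [Real.dist_eq]
      exact Complex.abs_im_le_norm (z - w)
  have h1 : dimH (f '' s) < 2 := lt_of_le_of_lt (hlip.dimH_image_le s) h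
  have h2 := hausdorffMeasure_of_dimH_lt (d := 2) (s := f '' s) (by simpa using h1)
  rw [NNReal.coe_ofNat, hausdorffMeasure_prod_real] at h2
  have h3 := Complex.volume_preserving_equiv_real_prod.measure_preimage_equiv (f '' s)
  rw [h2, Set.preimage_image_eq _ Complex.measurableEquivRealProd.injective] at h3
  exact h3

theorem ht_le {K : Type} [Field K] [NumberField K] (x : K) :
    (Module.finrank ℚ K : ℝ) * height ![x, 1 - x, -1] ≤
      (Module.finrank ℚ K : ℝ) * Real.log 2 + Real.log (Height.mulHeight₁ x) := by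
  have hn : (Module.finrank ℚ K : ℝ) ≠ 0 := by
    exact_mod_cast (Module.finrank_pos (R := ℚ) (M := K)).ne'
  rw [← Pool.Agent.W221.Exc.hr_aff_eq]
  unfold height Pool.Agent.H691R3.hr Pool.Agent.H691R3.aff
  rw [mul_div_cancel₀ _ hn]
  have hinf : ∑ w : InfinitePlace K, (w.mult : ℝ) * Real.log (max (w ((![x, 1 - x, -1] : Fin 3 → K) 0))
      (max (w ((![x, 1 - x, -1] : Fin 3 → K) 1)) (w ((![x, 1 - x, -1] : Fin 3 → K) 2)))) ≤
      (Module.finrank ℚ K : ℝ) * Real.log 2 +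
        ∑ w : InfinitePlace K, (w.mult : ℝ) * Real.log (max (w x) (w 1)) := by
    rw [← InfinitePlace.sum_mult_eq (K := K)]
    push_cast
    rw [Finset.sum_mul, ← Finset.sum_add_distrib]
    refine Finset.sum_le_sum fun w _ => ?_
    rw [← mul_add]
    refine mul_le_mul_of_nonneg_left ?_ (Nat.cast_nonneg _)
    have h1 : (1 : ℝ) ≤ max (w x) (w 1) := by
      rw [map_one]
      exact le_max_right _ _
    rw [← Real.log_mul (by norm_num) (by linarith)]
    have hm : w (-1 : K) = 1 := by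
      have h2 : w (-1 : K) = w 1 := w.1.map_neg 1
      rw [h2, map_one]
    have hs : w (1 - x) ≤ w 1 + w x := by
      have h3 := w.1.add_le 1 (-x)
      have h4 : w.1 (-x) = w.1 x := w.1.map_neg x
      rw [h4, ← sub_eq_add_neg] at h3
      exact h3
    refine Real.log_le_log ?_ ?_
    · refine lt_of_lt_of_le one_pos (le_max_of_le_right (le_max_of_le_right ?_))
      simp [hm]
    · have h5 := le_max_left (w x) (w 1)
      have h6 := le_max_right (w x) (w 1)
      refine max_le ?_ (max_le ?_ ?_)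
      · show w x ≤ _
        linarith
      · show w (1 - x) ≤ _
        linarith
      · show w (-1) ≤ _
        rw [hm]
        linarith
  have hfin : ∑ᶠ v : HeightOneSpectrum (𝓞 K), Real.log
      (max (FinitePlace.mk v ((![x, 1 - x, -1] : Fin 3 → K) 0))
        (max (FinitePlace.mk v ((![x, 1 - x, -1] : Fin 3 → K) 1))
          (FinitePlace.mk v ((![x, 1 - x, -1] : Fin 3 → K) 2)))) =
      ∑ᶠ v : HeightOneSpectrum (𝓞 K), Real.log
        (max (Pool.Agent.H691R3.fv v x) (Pool.Agent.H691R3.fv v 1)) := by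
    refine finsum_congr fun v => ?_
    congr 1
    show max (Pool.Agent.H691R3.fv v x) (max (Pool.Agent.H691R3.fv v (1 - x))
      (Pool.Agent.H691R3.fv v (-1))) = _
    have h1 : Pool.Agent.H691R3.fv v (-1 : K) = Pool.Agent.H691R3.fv v 1 :=
      (Pool.Agent.H691R3.fv v).map_neg 1
    rw [h1]
    have h2 : Pool.Agent.H691R3.fv v (1 - x) ≤
        max (Pool.Agent.H691R3.fv v x) (Pool.Agent.H691R3.fv v 1) := by
      rw [sub_eq_add_neg]
      refine (Pool.Agent.H691R3.fv_na v _ _).trans ?_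
      rw [(Pool.Agent.H691R3.fv v).map_neg, max_comm]
    apply le_antisymm
    · exact max_le (le_max_left _ _) (max_le h2 (le_max_right _ _))
    · exact max_le (le_max_left _ _) (le_max_of_le_right (le_max_right _ _))
  rw [hfin]
  linarith [hinf]

/-- **Approximations in a real field.** -/
theorem infinite_near {K : Type} [Field K] [NumberField K] (σ : K →+* ℝ) {τ : ℝ}
    (hτ : τ < 2 * (Module.finrank ℚ K : ℝ)) {ξ : ℝ} (hξ : ξ ∉ Set.range σ) :
    {x : K | x ≠ 0 ∧ x ≠ 1 ∧ dist ξ (σ x) ≤ Real.exp (-τ * height ![x, 1 - x, -1])}.Infinite := by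
  set n : ℝ := (Module.finrank ℚ K : ℝ) with hn
  have hn0 : 0 < n := by
    rw [hn]
    exact_mod_cast Module.finrank_pos
  set ρ : ℝ := max (τ / n) 1 with hρ
  have hρ1 : 1 ≤ ρ := le_max_right _ _
  have hρ2 : ρ < 2 := max_lt (by rw [div_lt_iff₀ hn0]; linarith) (by norm_num)
  have hτρ : τ ≤ ρ * n := by
    rw [← div_le_iff₀ hn0]
    exact le_max_left _ _
  obtain ⟨C, hC, hdir⟩ := Pool.Agent.R479.DK.dirichlet_real σ
  obtain ⟨N, hN⟩ := exists_nat_ge (max |ξ| 1)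
  have hN1 : (1 : ℝ) ≤ N := (le_max_right _ _).trans hN
  have hN0 : (0 : ℝ) < N := by linarith
  set A : ℝ := Height.mulHeight₁ (N : K) with hA
  have hA0 : 0 < A := Height.mulHeight₁_pos _
  set W : ℝ := (2 : ℝ) ^ n * A with hW
  have hW0 : 0 < W := by positivity
  intro hfin
  set U : Set ℝ := σ '' {x : K | x ≠ 0 ∧ x ≠ 1 ∧
    dist ξ (σ x) ≤ Real.exp (-τ * height ![x, 1 - x, -1])} ∪ {0, 1} with hU
  have hUf : U.Finite := (hfin.image _).union (by simp)
  have hξU : ξ ∉ U := by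
    rintro (⟨x, -, rfl⟩ | h)
    · exact hξ ⟨x, rfl⟩
    · rcases h with rfl | h
      · exact hξ ⟨0, map_zero _⟩
      · rw [Set.mem_singleton_iff] at h
        subst h
        exact hξ ⟨1, map_one _⟩
  obtain ⟨ε, hε, hball⟩ := Metric.isOpen_iff.1 hUf.isClosed.isOpen_compl ξ hξU
  -- a large `Q`
  have hQ : ∃ Q : ℝ, 1 ≤ Q ∧ N * C < ε * Q ∧
      N * C * W ^ ρ * C ^ (ρ - 1) ≤ Q ^ (2 - ρ) := by
    have h1 : ∀ᶠ Q : ℝ in atTop, 1 ≤ Q := eventually_ge_atTop 1
    have h2 : ∀ᶠ Q : ℝ in atTop, N * C < ε * Q :=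
      (tendsto_id.const_mul_atTop hε).eventually_gt_atTop _
    have h3 : ∀ᶠ Q : ℝ in atTop, N * C * W ^ ρ * C ^ (ρ - 1) ≤ Q ^ (2 - ρ) :=
      (tendsto_rpow_atTop (by linarith : (0 : ℝ) < 2 - ρ)).eventually_ge_atTop _
    obtain ⟨Q, hQ1, hQ2, hQ3⟩ := (h1.and (h2.and h3)).exists
    exact ⟨Q, hQ1, hQ2, hQ3⟩
  obtain ⟨Q, hQ1, hQ2, hQ3⟩ := hQ
  have hQ0 : 0 < Q := by linarith
  have hζ : |ξ / N| ≤ 1 := by
    rw [abs_div, abs_of_pos hN0, div_le_one hN0]
    exact (le_max_left _ _).trans hN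
  obtain ⟨y, hy1, hy2⟩ := hdir (ξ / N) hζ Q hQ1
  set h : ℝ := Height.mulHeight₁ y with hh
  have hh1 : 1 ≤ h := Height.one_le_mulHeight₁ y
  have hh0 : 0 < h := by linarith
  set x : K := (N : K) * y with hx
  have hd : |ξ - σ x| ≤ N * C / (Q * h) := by
    have h1 : ξ - σ x = N * (ξ / N - σ y) := by
      rw [hx, map_mul, map_natCast]
      field_simp
    rw [h1, abs_mul, abs_of_pos hN0, mul_div_assoc]
    exact mul_le_mul_of_nonneg_left hy2 hN0.le
  have hNC : 0 < N * C := mul_pos hN0 (by linarith)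
  have hclose : dist (σ x) ξ < ε := by
    rw [dist_comm, Real.dist_eq]
    refine lt_of_le_of_lt hd ?_
    rw [div_lt_iff₀ (by positivity)]
    nlinarith
  have hxU : σ x ∉ U := hball hclose
  have hx0 : x ≠ 0 := by
    intro h0
    apply hxU
    rw [h0, map_zero]
    right
    simp
  have hx1 : x ≠ 1 := by
    intro h0
    apply hxU
    rw [h0, map_one]
    right
    simp
  refine hxU (Or.inl ⟨x, ⟨hx0, hx1, ?_⟩, rfl⟩)
  rw [Real.dist_eq]
  refine hd.trans ?_
  have hH : n * height ![x, 1 - x, -1] ≤ Real.log (W * h) := by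
    refine (ht_le x).trans ?_
    have h1 : Height.mulHeight₁ x ≤ A * h := Height.mulHeight₁_mul_le _ _
    have h2 := Real.log_le_log (Height.mulHeight₁_pos _) h1
    rw [hW, mul_assoc, Real.log_mul (by positivity) (by positivity), Real.log_rpow (by norm_num)]
    linarith
  have h1 : -ρ * Real.log (W * h) ≤ -τ * height ![x, 1 - x, -1] := by
    have h2 := height_nonneg x
    have h3 : τ * height ![x, 1 - x, -1] ≤ ρ * n * height ![x, 1 - x, -1] :=
      mul_le_mul_of_nonneg_right hτρ h2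
    have h4 : ρ * (n * height ![x, 1 - x, -1]) ≤ ρ * Real.log (W * h) :=
      mul_le_mul_of_nonneg_left hH (by linarith)
    linarith
  refine le_trans ?_ (Real.exp_le_exp.2 h1)
  have h2 : Real.exp (-ρ * Real.log (W * h)) = (W * h) ^ (-ρ) := by
    rw [Real.rpow_def_of_pos (by positivity)]
    ring_nf
  rw [h2, Real.rpow_neg (by positivity), div_le_iff₀ (by positivity), inv_mul_eq_div,
    le_div_iff₀ (by positivity)]
  have h3 : h ^ ρ = h ^ (ρ - 1) * h := by
    rw [← Real.rpow_add_one hh0.ne']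
    ring_nf
  have h4 : h ^ (ρ - 1) ≤ C ^ (ρ - 1) * Q ^ (ρ - 1) := by
    rw [← Real.mul_rpow (by linarith) hQ0.le]
    exact Real.rpow_le_rpow hh0.le hy1 (by linarith)
  have h5 : Q ^ (2 - ρ) * Q ^ (ρ - 1) = Q := by
    rw [← Real.rpow_add hQ0]
    ring_nf
    rw [Real.rpow_one]
  rw [Real.mul_rpow hW0.le hh0.le, h3]
  calc N * C * (W ^ ρ * (h ^ (ρ - 1) * h))
      ≤ N * C * (W ^ ρ * ((C ^ (ρ - 1) * Q ^ (ρ - 1)) * h)) := by gcongr
    _ = (N * C * W ^ ρ * C ^ (ρ - 1)) * Q ^ (ρ - 1) * h := by ring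
    _ ≤ Q ^ (2 - ρ) * Q ^ (ρ - 1) * h := by gcongr
    _ = Q * h := by rw [h5]

theorem dim_weak (L : Type) [Field L] [CharZero L] [MetricSpace L] {e : ℕ → ℝ} (he : ∀ n, 0 ≤ e n)
    (H : ∀ n : ℕ, 2 ≤ n → ∀ κ c δ : ℝ, 0 < κ → 0 < δ → ∃ M : ℝ, ∀ B : ℝ, 1 ≤ B →
      (Viol n κ c B).Finite ∧ ((Viol n κ c B).ncard : ℝ) ≤ M * B ^ ((n : ℝ) * e n / κ + δ)) :
    dimH (WeakBad L) = 0 := by
  have h1 : WeakBad L ⊆ ⋃ n : ℕ, ⋃ m : ℕ, ⋂ k : ℕ,
      Bad L (n + 2) ((k : ℝ) + 1) (1 / ((m : ℝ) + 1)) := by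
    rintro ξ ⟨n, hn, τ, hτ, h⟩
    obtain ⟨n', rfl⟩ : ∃ n', n = n' + 2 := ⟨n - 2, by omega⟩
    obtain ⟨m, hm⟩ := exists_nat_one_div_lt hτ
    refine Set.mem_iUnion.2 ⟨n', Set.mem_iUnion.2 ⟨m, Set.mem_iInter.2 fun k => ?_⟩⟩
    refine ⟨0, fun hfin => ?_⟩
    obtain ⟨C, hC⟩ := (hfin.image ht).bddAbove
    obtain ⟨p, hp1, hp2⟩ := h ((k : ℝ) + 1) (max C 0)
    have hdn := dn_nonneg p
    have hk : 0 ≤ ((k : ℝ) + 1) * dn p := mul_nonneg (by positivity) hdn
    have hp3 : ht p ≤ C := hC ⟨p, ⟨near_mono hm.le ξ hp1, by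
      have := le_max_right C 0
      linarith⟩, rfl⟩
    have := le_max_left C 0
    linarith
  refine le_antisymm ((dimH_mono h1).trans ?_) bot_le
  rw [dimH_iUnion]
  refine iSup_le fun n => ?_
  rw [dimH_iUnion]
  refine iSup_le fun m => ?_
  set a : ℝ := ((n + 2 : ℕ) : ℝ) * e (n + 2) * ((m : ℝ) + 1) with ha
  have hlim : Tendsto (fun k : ℕ => ENNReal.ofReal (1 / ((k : ℝ) + 1) * a)) atTop
      (𝓝 (ENNReal.ofReal (0 * a))) :=
    ENNReal.tendsto_ofReal (tendsto_one_div_add_atTop_nhds_zero_nat.mul_const a)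
  rw [zero_mul, ENNReal.ofReal_zero] at hlim
  refine ge_of_tendsto' hlim fun k => ?_
  refine (dimH_mono (Set.iInter_subset _ k)).trans ?_
  have h2 := dim_bad L (n := n + 2) (κ := (k : ℝ) + 1) (e := e (n + 2))
    (τ := 1 / ((m : ℝ) + 1)) (by positivity) (he _) (by positivity)
    (fun c δ hδ => H (n + 2) (by omega) _ c δ (by positivity) hδ)
  refine h2.trans (le_of_eq ?_)
  congr 1
  rw [ha]
  field_simp

theorem ae_aux (L : Type) [Field L] [CharZero L] [MetricSpace L] [MeasurableSpace L]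
    (μ : Measure L) {D : ℝ} (hD : 0 < D) (hμ : ∀ s : Set L, dimH s < ENNReal.ofReal D → μ s = 0)
    {e : ℕ → ℝ} (he : ∀ n, 0 ≤ e n)
    (H : ∀ n : ℕ, 2 ≤ n → ∀ κ c δ : ℝ, 0 < κ → 0 < δ → ∃ M : ℝ, ∀ B : ℝ, 1 ≤ B →
      (Viol n κ c B).Finite ∧ ((Viol n κ c B).ncard : ℝ) ≤ M * B ^ ((n : ℝ) * e n / κ + δ)) :
    ∀ᵐ ξ ∂μ, ∀ (n : ℕ) (κ τ c : ℝ), 2 ≤ n → 0 < κ → n * e n < D * (κ * τ) →
      {p | p ∈ Near n τ ξ ∧ κ * dn p + c < ht p}.Finite := by
  have h1 : ∀ (n : ℕ) (a b : ℚ), 2 ≤ n → 0 < a → 0 < b → n * e n < D * ((a : ℝ) * b) →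
      μ (Bad L n a b) = 0 := by
    intro n a b hn ha hb hab
    have ha' : (0 : ℝ) < a := by exact_mod_cast ha
    have hb' : (0 : ℝ) < b := by exact_mod_cast hb
    apply hμ
    refine lt_of_le_of_lt (dim_bad L ha' (he n) hb'
      (fun c δ hδ => H n hn _ c δ ha' hδ)) ?_
    rw [ENNReal.ofReal_lt_ofReal_iff hD, div_lt_iff₀ (by positivity)]
    exact hab
  have h2 : ∀ᵐ ξ ∂μ, ∀ (n : ℕ) (a b : ℚ), 2 ≤ n → 0 < a → 0 < b →
      n * e n < D * ((a : ℝ) * b) → ξ ∉ Bad L n a b := by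
    rw [ae_all_iff]
    intro n
    rw [ae_all_iff]
    intro a
    rw [ae_all_iff]
    intro b
    by_cases h : 2 ≤ n ∧ 0 < a ∧ 0 < b ∧ n * e n < D * ((a : ℝ) * b)
    · obtain ⟨hn, ha, hb, hab⟩ := h
      have h3 : ∀ᵐ ξ ∂μ, ξ ∉ Bad L n a b := by
        rw [ae_iff]
        simpa using h1 n a b hn ha hb hab
      filter_upwards [h3] with ξ hξ
      exact fun _ _ _ _ => hξ
    · refine Filter.Eventually.of_forall fun ξ hn ha hb hab => ?_
      exact absurd ⟨hn, ha, hb, hab⟩ h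
  filter_upwards [h2] with ξ hξ
  intro n κ τ c hn hκ hlt
  by_contra hinf
  have hne : 0 ≤ (n : ℝ) * e n := mul_nonneg (Nat.cast_nonneg _) (he n)
  have hτ : 0 < τ := by
    by_contra hcon
    push Not at hcon
    have : D * (κ * τ) ≤ 0 :=
      mul_nonpos_of_nonneg_of_nonpos hD.le (mul_nonpos_of_nonneg_of_nonpos hκ.le hcon)
    linarith
  -- a rational `b` below `τ` and a rational `a` below `κ`
  have hb : (n : ℝ) * e n / (D * κ) < τ := by
    rw [div_lt_iff₀ (by positivity)]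
    linarith
  obtain ⟨b, hb1, hb2⟩ := exists_rat_btwn (max_lt hb hτ)
  have hb0 : (0 : ℝ) < b := lt_of_le_of_lt (le_max_right _ _) hb1
  have hb3 : (n : ℝ) * e n / (D * κ) < b := lt_of_le_of_lt (le_max_left _ _) hb1
  have ha : (n : ℝ) * e n / (D * b) < κ := by
    rw [div_lt_iff₀ (by positivity)] at hb3 ⊢
    linarith
  obtain ⟨a, ha1, ha2⟩ := exists_rat_btwn (max_lt ha hκ)
  have ha0 : (0 : ℝ) < a := lt_of_le_of_lt (le_max_right _ _) ha1
  have ha3 : (n : ℝ) * e n / (D * b) < a := lt_of_le_of_lt (le_max_left _ _) ha1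
  refine hξ n a b hn (by exact_mod_cast ha0) (by exact_mod_cast hb0) ?_
    (bad_mono ha2.le hb2.le ⟨c, hinf⟩)
  rw [div_lt_iff₀ (by positivity)] at ha3
  linarith

/-- **Theorem.** There is a function `e ≥ 0` with `e n ≤ expo n` for `n ≥ 2` (so `e 2 ≤ 1`,
`e 3 ≤ 5 / 4`, `e n ≤ (n + 2) / 4` for primes) and `e n = O(log ^ 2 n)` such that:
(1) for every field `L` of characteristic zero with a metric (such as `ℝ`, `ℂ`, `ℚ_[p]`), all
`n ≥ 2` and `κ, τ > 0` and all `ξ` in `L` outside a set of Hausdorff dimension at most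
`n e(n) / (κ τ)`: for each `c` all but finitely many of the approximations of `ξ` of exponent `τ` in
ALL number fields of degree `n` satisfy `log H ≤ κ (log δ_K + log N) + c`;
(2) for almost all real `ξ` this holds for all `n ≥ 2` and `κ, τ > 0` with `n e(n) < κ τ`, and for
almost all complex `ξ` it holds for all `n ≥ 2` and `κ, τ > 0` with `n e(n) < 2 κ τ`.
(3) For all `ξ` in `L` outside a set of Hausdorff dimension zero, all `n ≥ 2` and `τ > 0` there are
`κ` and `C` with `log H ≤ κ (log δ_K + log N) + C` for ALL approximations of `ξ` of exponent `τ` in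
ALL number fields of degree `n`.
(4) For every number field `K` of degree `n` with a real embedding `σ`, every real `ξ` not in `σ(K)`
and every `τ < 2 n` there are infinitely many approximations of `ξ` of exponent `τ` in `K`. -/
theorem result :
    (∃ e : ℕ → ℝ, (∀ n, 0 ≤ e n) ∧ (∀ n : ℕ, 2 ≤ n → e n ≤ expo n) ∧
      (∀ c : ℝ, 1 / (8 * (Real.log 2) ^ 2) < c →
        ∀ᶠ n : ℕ in Filter.atTop, e n ≤ c * (Real.log n) ^ 2) ∧
      (∀ (L : Type) [Field L] [CharZero L] [MetricSpace L] (n : ℕ) (κ τ : ℝ),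
        2 ≤ n → 0 < κ → 0 < τ →
          dimH {ξ : L | ∃ c : ℝ, {p | p ∈ Near n τ ξ ∧ κ * dn p + c < ht p}.Infinite} ≤
            ENNReal.ofReal (n * e n / (κ * τ))) ∧
      (∀ᵐ ξ : ℝ, ∀ (n : ℕ) (κ τ c : ℝ), 2 ≤ n → 0 < κ → n * e n < κ * τ →
        {p | p ∈ Near n τ ξ ∧ κ * dn p + c < ht p}.Finite) ∧
      (∀ᵐ ξ : ℂ, ∀ (n : ℕ) (κ τ c : ℝ), 2 ≤ n → 0 < κ → n * e n < 2 * (κ * τ) →
        {p | p ∈ Near n τ ξ ∧ κ * dn p + c < ht p}.Finite)) ∧
    (∀ (L : Type) [Field L] [CharZero L] [MetricSpace L], ∃ E : Set L, dimH E = 0 ∧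
      ∀ ξ : L, ξ ∉ E → ∀ (n : ℕ) (τ : ℝ), 2 ≤ n → 0 < τ → ∃ κ C : ℝ,
        ∀ p ∈ Near n τ ξ, ht p ≤ κ * dn p + C) ∧
    (∀ (K : {K : IntermediateField ℚ (AlgebraicClosure ℚ) // NumberField K}) (σ : K.1 →+* ℝ)
      (τ : ℝ), τ < 2 * (Module.finrank ℚ K.1 : ℝ) → ∀ ξ : ℝ, ξ ∉ Set.range σ →
        {x : K.1 | (⟨K, x, σ⟩ : Pt ℝ) ∈ Near (Module.finrank ℚ K.1) τ ξ}.Infinite) := by
  obtain ⟨e, he1, he2, he3⟩ := FewViolators.result.1
  have hexpo : ∀ n : ℕ, 0 ≤ expo n := fun n => by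
    unfold FewViolators.expo
    positivity
  have H : ∀ n : ℕ, 2 ≤ n → ∀ κ c δ : ℝ, 0 < κ → 0 < δ → ∃ M : ℝ, ∀ B : ℝ, 1 ≤ B →
      (Viol n κ c B).Finite ∧
        ((Viol n κ c B).ncard : ℝ) ≤ M * B ^ ((n : ℝ) * max (e n) 0 / κ + δ) := by
    intro n hn κ c δ hκ hδ
    obtain ⟨M, hM⟩ := he3 n hn κ c δ hκ hδ
    refine ⟨|M|, fun B hB => ⟨(hM B hB).1, (hM B hB).2.trans ?_⟩⟩
    have hB0 : 0 < B := by linarith
    refine (mul_le_mul_of_nonneg_right (le_abs_self M) (Real.rpow_nonneg hB0.le _)).trans ?_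
    refine mul_le_mul_of_nonneg_left ?_ (abs_nonneg M)
    refine Real.rpow_le_rpow_of_exponent_le hB ?_
    have h1 : (n : ℝ) * e n / κ ≤ (n : ℝ) * max (e n) 0 / κ :=
      div_le_div_of_nonneg_right (mul_le_mul_of_nonneg_left (le_max_left _ _)
        (Nat.cast_nonneg _)) hκ.le
    linarith
  have hm : ∀ n, 0 ≤ max (e n) 0 := fun n => le_max_right _ _
  refine ⟨⟨fun n => max (e n) 0, hm, fun n hn => max_le (he2 n hn) (hexpo n), fun c hc => ?_,
    fun L _ _ _ n κ τ hn hκ hτ => ?_, ?_, ?_⟩, fun L _ _ _ => ?_, fun K σ τ hτ ξ hξ => ?_⟩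
  · have hc0 : 0 < c := lt_trans (by
      have := Real.log_pos (by norm_num : (1 : ℝ) < 2)
      positivity) hc
    filter_upwards [he1 c hc] with n hn
    exact max_le hn (by positivity)
  · exact dim_bad L hκ (hm n) hτ (fun c δ hδ => H n hn κ c δ hκ hδ)
  · have h1 := ae_aux ℝ volume (D := 1) one_pos (fun s hs => null_real (by simpa using hs)) hm H
    filter_upwards [h1] with ξ hξ
    intro n κ τ c hn hκ hlt
    exact hξ n κ τ c hn hκ (by linarith)
  · have h1 := ae_aux ℂ volume (D := 2) two_pos (fun s hs => null_complex (by simpa using hs)) hm H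
    filter_upwards [h1] with ξ hξ
    intro n κ τ c hn hκ hlt
    exact hξ n κ τ c hn hκ hlt
  · refine ⟨WeakBad L, dim_weak L hm H, fun ξ hξ n τ hn hτ => ?_⟩
    by_contra hcon
    push Not at hcon
    exact hξ ⟨n, hn, τ, hτ, hcon⟩
  · have hK : NumberField K.1 := K.2
    have h1 := infinite_near σ hτ hξ
    refine h1.mono ?_
    rintro x ⟨h2, h3, h4⟩
    exact ⟨⟨rfl, h2, h3⟩, h4⟩

end Pool.Agent.Results.MP_6e34ef_nt.ApproximationsAllFields
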