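import Mathlib
import Pool.Agent.R365.QP.VLow
import Pool.Agent.R365.QP.QUp
import Pool.Agent.R365.QP.DiscP
import Pool.Agent.R365.QP.CountP
import Pool.Agent.R365.QP.CoprP
import Pool.Agent.R365.QP.HsumP
import Pool.Agent.R365.QP.RootP
import Pool.Agent.R365.QP.SqP
import Pool.Agent.R365.QP.Rad2P
import Pool.Agent.R365.QP.JupP
import Pool.Agent.R365.QP.LowcP

/-!
# The uniform abc inequality for the points of degree two: the sharp exponent

For `x` of degree two let `K = ℚ(x)`, and let `H`, `N` be the height and the conductor of the triple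
`(x, 1 - x, -1)` and `δ` the root discriminant of `K`. The uniform abc inequality is
`H ≤ C (δ N) ^ (1 + ε)`. We show that `δ N ≤ C H ^ 5` for all `x`, that for every `κ > 1 / 5` and every
`c` the inequality `H ≤ exp(c) (δ N) ^ κ` holds for 100% of all `x` ordered by the height, with a
power saving, and that for `κ < 1 / 5` it holds for finitely many `x` only: `H` is
`(δ N) ^ (1 / 5 + o(1))` for 100% of all `x`. For `1 / 5 ≤ κ < 1 / 4` the exact order of the number of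
the exceptions of height at most `B` is `B ^ (1 + 1 / κ + o(1))`, among about `B ^ 6` points.

Upper bound: `x` is a root of `a T ^ 2 + b T + c` with integers `a`, `b`, `c` of size `B ^ 2`, and `N ^ 2` is
at least the product of the radicals of `a`, `c`, `a + b + c`, while `δ ^ 2` is at least the square free
part of `b ^ 2 - 4 a c`. The polynomials for which this square free part is small are counted by the
divisor bound; those for which in addition the radicals are small are counted by means of the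
solutions of the congruences `b ^ 2 = 4 a c` modulo `m ^ 2`, for two of the three values with the
smallest radicals. Lower bound: polynomials for which `b ^ 2 - 4 a c` is divisible by a large square.
-/

set_option autoImplicit false

namespace Pool.Agent.Results.MP_6e34ef_nt.QuadraticPointsSharp

open NumberField IsDedekindDomain

section Defs

variable {K : Type} [Field K] [NumberField K]

/-- `log H(x_0, x_1, x_2)` -/
noncomputable def height (x : Fin 3 → K) : ℝ :=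
  (∑ w : InfinitePlace K, (w.mult : ℝ) * Real.log (max (w (x 0)) (max (w (x 1)) (w (x 2)))) +
    ∑ᶠ v : HeightOneSpectrum (𝓞 K), Real.log
      (max (FinitePlace.mk v (x 0)) (max (FinitePlace.mk v (x 1)) (FinitePlace.mk v (x 2))))) /
    (Module.finrank ℚ K : ℝ)

/-- `log N(x_0, x_1, x_2)` -/
noncomputable def conductor (x : Fin 3 → K) : ℝ :=
  (∑ᶠ (v : HeightOneSpectrum (𝓞 K)) (_ : ¬ (FinitePlace.mk v (x 0) = FinitePlace.mk v (x 1) ∧
      FinitePlace.mk v (x 1) = FinitePlace.mk v (x 2))),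
    Real.log (Ideal.absNorm v.asIdeal : ℝ)) / (Module.finrank ℚ K : ℝ)

variable (K) in
/-- `log δ_K` -/
noncomputable def rootDisc : ℝ := Real.log |(NumberField.discr K : ℝ)| / (Module.finrank ℚ K : ℝ)

end Defs

/-- the algebraic numbers `x` of degree two for which `P K t` holds, where `K = ℚ(x)` and `t` is `x` as
an element of `K` -/
def Deg2 (P : ∀ (K : IntermediateField ℚ (AlgebraicClosure ℚ)) [NumberField K], K → Prop) :
    Set (AlgebraicClosure ℚ) :=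
  {x | ∃ (K : IntermediateField ℚ (AlgebraicClosure ℚ)) (_ : NumberField K) (t : K),
    (t : AlgebraicClosure ℚ) = x ∧ Module.finrank ℚ K = 2 ∧ (∀ q : ℚ, t ≠ algebraMap ℚ K q) ∧
      P K t}

/-- the numbers of degree two and height `H(x, 1 - x, -1) ≤ B` -/
def Points (B : ℝ) : Set (AlgebraicClosure ℚ) :=
  Deg2 fun _ _ t => height ![t, 1 - t, -1] ≤ Real.log B

/-- those which violate `H ≤ exp(c) * (δ_K * N) ^ κ` -/
def Violators (κ c B : ℝ) : Set (AlgebraicClosure ℚ) :=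
  Deg2 fun K _ t => height ![t, 1 - t, -1] ≤ Real.log B ∧
    c + κ * (rootDisc K + conductor ![t, 1 - t, -1]) < height ![t, 1 - t, -1]

/-- the numbers of degree two, of any height, with `H ≤ exp(c) * (δ_K * N) ^ κ` -/
def Satisfying (κ c : ℝ) : Set (AlgebraicClosure ℚ) :=
  Deg2 fun K _ t =>
    height ![t, 1 - t, -1] ≤ c + κ * (rootDisc K + conductor ![t, 1 - t, -1])

theorem points_iff (B : ℝ) (x : AlgebraicClosure ℚ) : x ∈ Points B ↔ R365.QP.Quad2 B x := Iff.rfl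

theorem viol_iff (κ c B : ℝ) (x : AlgebraicClosure ℚ) :
    x ∈ Violators κ c B ↔ R365.QP.Vio κ c B x := by
  constructor
  · rintro ⟨K, h, t, h1, h2, h3, h4, h5⟩
    exact ⟨K, h, t, h1, h2, h3, h4, h5⟩
  · rintro ⟨K, h, t, h1, h2, h3, h4, h5⟩
    exact ⟨K, h, t, h1, h2, h3, h4, h5⟩

theorem jup : R365.QP.S_JUP :=
  R365.QP.t_JUP R365.QP.t_SQ R365.QP.t_RAD2 R365.QP.t_COUNT

theorem points_up {B : ℝ} (hB : 1 ≤ B) : (Points B).Finite ∧
    ((Points B).ncard : ℝ) ≤ 13718 * B ^ 6 :=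
  W222.UABC.ncard_le_of _ _ fun E hE => R365.QP.quad_up hB E fun x hx =>
    (points_iff B x).1 (hE (Finset.mem_coe.2 hx))

theorem points_finite (R : ℝ) :
    (Deg2 fun _ _ t => height ![t, 1 - t, -1] ≤ R).Finite := by
  refine (points_up (le_max_right (Real.exp R) 1)).1.subset ?_
  rintro x ⟨K, h, t, h1, h2, h3, h4⟩
  refine ⟨K, h, t, h1, h2, h3, h4.trans ?_⟩
  rw [Real.le_log_iff_exp_le (by positivity)]
  exact le_max_left _ _

theorem size_nonneg {K : Type} [Field K] [NumberField K] (x : Fin 3 → K) :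
    0 ≤ rootDisc K + conductor x :=
  add_nonneg (div_nonneg (Real.log_nonneg W222.UABC.one_le_disc) (Nat.cast_nonneg _))
    (W222.UABC.conductor_nonneg x)

theorem part_two : ∃ C : ℝ, ∀ (K : Type) [Field K] [NumberField K],
    Module.finrank ℚ K = 2 → ∀ x : K, (∀ q : ℚ, x ≠ algebraMap ℚ K q) →
      rootDisc K + conductor ![x, 1 - x, -1] ≤ 5 * height ![x, 1 - x, -1] + C :=
  ⟨_, fun _ _ _ hK _ hirr => R365.QP.up R365.QP.t_DISC hK hirr⟩

theorem part_one : ∃ c C B₀ : ℝ, 0 < c ∧ 1 ≤ B₀ ∧ ∀ B : ℝ, B₀ ≤ B → (Points B).Finite ∧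
    c * B ^ 6 ≤ ((Points B).ncard : ℝ) ∧ ((Points B).ncard : ℝ) ≤ C * B ^ 6 := by
  obtain ⟨c, B₀, hc, hB₀, h⟩ := R365.QP.many R365.QP.t_ROOT R365.QP.t_HSUM R365.QP.t_COPR
  refine ⟨c, 13718, B₀, hc, hB₀, fun B hB => ?_⟩
  obtain ⟨h1, h2⟩ := points_up (hB₀.trans hB)
  obtain ⟨E, hE1, hE2⟩ := h B hB
  refine ⟨h1, hE1.trans ?_, h2⟩
  rw [← Set.ncard_coe_finset E]
  exact_mod_cast Set.ncard_le_ncard (fun x hx => (points_iff B x).2 (hE2 x (Finset.mem_coe.1 hx))) h1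

theorem viol_up {κ c ε : ℝ} (h5 : 1 / 5 ≤ κ) (h4 : κ ≤ 1 / 4) (hε : 0 < ε) :
    ∃ M : ℝ, 0 < M ∧ ∀ B : ℝ, 1 ≤ B →
      ((Violators κ c B).ncard : ℝ) ≤ M * B ^ (1 + 1 / κ + ε) := by
  obtain ⟨M, hM, h⟩ := R365.QP.vio_up (c := c) R365.QP.t_DISC R365.QP.t_COUNT jup h5 h4 hε
  exact ⟨M, hM, fun B hB => (W222.UABC.ncard_le_of _ _ fun E hE => h B hB E fun x hx =>
    (viol_iff κ c B x).1 (hE (Finset.mem_coe.2 hx))).2⟩

theorem viol_subset (κ c B : ℝ) : Violators κ c B ⊆ Points B := by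
  rintro x ⟨K, h, t, h1, h2, h3, h4, h5⟩
  exact ⟨K, h, t, h1, h2, h3, h4⟩

theorem part_three {κ c ε : ℝ} (h5 : 1 / 5 ≤ κ) (h4 : κ < 1 / 4) (hε : 0 < ε) :
    ∃ m M B₀ : ℝ, 0 < m ∧ ∀ B : ℝ, B₀ ≤ B →
      m * B ^ (1 + 1 / κ - ε) ≤ ((Violators κ c B).ncard : ℝ) ∧
      ((Violators κ c B).ncard : ℝ) ≤ M * B ^ (1 + 1 / κ + ε) := by
  obtain ⟨M, hM, h⟩ := viol_up (c := c) h5 h4.le hε
  obtain ⟨m, B₀, hm, hB₀, h'⟩ := R365.QP.vio_low (c := c) R365.QP.t_DISC R365.QP.t_ROOT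
    R365.QP.t_HSUM R365.QP.t_LOWC h5 h4 hε
  refine ⟨m, M, B₀, hm, fun B hB => ⟨?_, h B (hB₀.trans hB)⟩⟩
  obtain ⟨E, hE1, hE2⟩ := h' B hB
  refine hE1.trans ?_
  rw [← Set.ncard_coe_finset E]
  exact_mod_cast Set.ncard_le_ncard
    (fun x hx => (viol_iff κ c B x).2 (hE2 x (Finset.mem_coe.1 hx)))
    ((points_up (hB₀.trans hB)).1.subset (viol_subset κ c B))

theorem part_four {κ c : ℝ} (hκ : 1 / 5 < κ) : ∃ ν M B₀ : ℝ, 0 < ν ∧ ∀ B : ℝ, B₀ ≤ B →
    ((Violators κ c B).ncard : ℝ) ≤ M * B ^ (-ν) * ((Points B).ncard : ℝ) := by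
  obtain ⟨κ', hκ'⟩ : ∃ κ' : ℝ, κ' = min κ (1 / 4) := ⟨_, rfl⟩
  have h1 : 1 / 5 < κ' := by rw [hκ']; exact lt_min hκ (by norm_num)
  have h2 : κ' ≤ 1 / 4 := by rw [hκ']; exact min_le_right _ _
  have h3 : κ' ≤ κ := by rw [hκ']; exact min_le_left _ _
  have h0 : 0 < κ' := by linarith
  have h5 : 1 / κ' < 5 := by
    rw [div_lt_iff₀ h0]
    linarith
  obtain ⟨ν, hν⟩ : ∃ ν : ℝ, ν = (5 - 1 / κ') / 2 := ⟨_, rfl⟩
  have hν0 : 0 < ν := by rw [hν]; linarith
  obtain ⟨M, hM, h⟩ := viol_up (c := c) h1.le h2 hν0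
  obtain ⟨c0, C, B₀, hc0, hB₀, hP⟩ := part_one
  refine ⟨ν, M / c0, B₀, hν0, fun B hB => ?_⟩
  have hB1 : 1 ≤ B := hB₀.trans hB
  have hB0 : 0 < B := by linarith
  obtain ⟨hfin, hlow, -⟩ := hP B hB
  have hsub : Violators κ c B ⊆ Violators κ' c B := by
    rintro x ⟨K, hK, t, k1, k2, k3, k4, k5⟩
    refine ⟨K, hK, t, k1, k2, k3, k4, lt_of_le_of_lt ?_ k5⟩
    have := mul_le_mul_of_nonneg_right h3 (size_nonneg ![t, 1 - t, -1])
    linarith
  have hle : ((Violators κ c B).ncard : ℝ) ≤ ((Violators κ' c B).ncard : ℝ) := by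
    exact_mod_cast Set.ncard_le_ncard hsub (hfin.subset (viol_subset κ' c B))
  have e1 : B ^ (1 + 1 / κ' + ν) = B ^ (-ν) * B ^ 6 := by
    rw [← Real.rpow_natCast B 6, ← Real.rpow_add hB0]
    congr 1
    rw [hν]
    push_cast
    ring
  have e2 : 0 ≤ M * B ^ (-ν) := by positivity
  calc ((Violators κ c B).ncard : ℝ) ≤ M * B ^ (1 + 1 / κ' + ν) := hle.trans (h B hB1)
    _ = M * B ^ (-ν) / c0 * (c0 * B ^ 6) := by
        rw [e1]
        field_simp
    _ ≤ M * B ^ (-ν) / c0 * ((Points B).ncard : ℝ) :=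
        mul_le_mul_of_nonneg_left hlow (by positivity)
    _ = _ := by ring

theorem part_five {κ c : ℝ} (hκ : κ < 1 / 5) : (Satisfying κ c).Finite := by
  obtain ⟨C, hC⟩ := part_two
  refine (points_finite (max c ((c + |κ| * |C|) / (1 - 5 * κ)))).subset ?_
  rintro x ⟨K, hK, t, k1, k2, k3, k4⟩
  refine ⟨K, hK, t, k1, k2, k3, ?_⟩
  have h1 := hC K k2 t k3
  have h2 := size_nonneg ![t, 1 - t, -1]
  obtain ⟨h, hh⟩ : ∃ h : ℝ, h = height ![t, 1 - t, -1] := ⟨_, rfl⟩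
  obtain ⟨l, hl⟩ : ∃ l : ℝ, l = rootDisc K + conductor ![t, 1 - t, -1] := ⟨_, rfl⟩
  rw [← hh, ← hl] at k4
  rw [← hh, ← hl] at h1
  rw [← hl] at h2
  change height ![t, 1 - t, -1] ≤ _
  rw [← hh]
  rcases le_or_gt κ 0 with h0 | h0
  · refine le_trans ?_ (le_max_left _ _)
    have := mul_nonpos_of_nonpos_of_nonneg h0 h2
    linarith
  · refine le_trans ?_ (le_max_right _ _)
    have h3 : 0 < 1 - 5 * κ := by linarith
    rw [le_div_iff₀ h3, abs_of_pos h0]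
    have h4 := mul_le_mul_of_nonneg_left h1 h0.le
    have h5 := mul_le_mul_of_nonneg_left (le_abs_self C) h0.le
    linarith

/-- **Main theorem.** The algebraic numbers `x` of degree two, `K = ℚ(x)`.
(1) The number of those with `H ≤ B` is between `c * B ^ 6` and `C * B ^ 6`.
(2) `δ_K * N ≤ exp(C) * H ^ 5` for all of them.
(3) For `1 / 5 ≤ κ < 1 / 4` and all `c` the number of those with `H ≤ B` which violate
`H ≤ exp(c) * (δ_K * N) ^ κ` is `B ^ (1 + 1 / κ + o(1))`.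
(4) For `κ > 1 / 5` and all `c` these are at most the proportion `M * B ^ (-ν)`, `ν > 0`, of all.
(5) For `κ < 1 / 5` and all `c` only finitely many satisfy `H ≤ exp(c) * (δ_K * N) ^ κ`. -/
theorem result :
    (∃ c C B₀ : ℝ, 0 < c ∧ 1 ≤ B₀ ∧ ∀ B : ℝ, B₀ ≤ B → (Points B).Finite ∧
      c * B ^ 6 ≤ ((Points B).ncard : ℝ) ∧ ((Points B).ncard : ℝ) ≤ C * B ^ 6) ∧
    (∃ C : ℝ, ∀ (K : Type) [Field K] [NumberField K],
      Module.finrank ℚ K = 2 → ∀ x : K, (∀ q : ℚ, x ≠ algebraMap ℚ K q) →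
        rootDisc K + conductor ![x, 1 - x, -1] ≤ 5 * height ![x, 1 - x, -1] + C) ∧
    (∀ κ c ε : ℝ, 1 / 5 ≤ κ → κ < 1 / 4 → 0 < ε → ∃ m M B₀ : ℝ, 0 < m ∧ ∀ B : ℝ, B₀ ≤ B →
      m * B ^ (1 + 1 / κ - ε) ≤ ((Violators κ c B).ncard : ℝ) ∧
      ((Violators κ c B).ncard : ℝ) ≤ M * B ^ (1 + 1 / κ + ε)) ∧
    (∀ κ c : ℝ, 1 / 5 < κ → ∃ ν M B₀ : ℝ, 0 < ν ∧ ∀ B : ℝ, B₀ ≤ B →
      ((Violators κ c B).ncard : ℝ) ≤ M * B ^ (-ν) * ((Points B).ncard : ℝ)) ∧
    (∀ κ c : ℝ, κ < 1 / 5 → (Satisfying κ c).Finite) :=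
  ⟨part_one, part_two, fun _ _ _ h5 h4 hε => part_three h5 h4 hε, fun _ _ hκ => part_four hκ,
    fun _ _ hκ => part_five hκ⟩

end Pool.Agent.Results.MP_6e34ef_nt.QuadraticPointsSharp
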