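import Pool.Agent.R909.RandCong
import Pool.Agent.R479.DA.Lim
import Pool.Agent.Results.MP_6e34ef_nt.FewViolators

/-!
# The uniform abc inequality and random residues

We consider ALL number fields `K` of degree `n` and all `x` in `K`, `x ≠ 0, 1`, with the triple
`(x, 1 - x, -1)` of height `H`. Let `N j ≥ 1` have a convergent sum of the `N j ^ (-s)`, let `X j` be
random elements of sets `Rs j`, each value of which has probability at most `C * N j ^ (-d)`,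
`s < d`, and let `φ j` be ANY maps from the pairs `(K, x)` to `Rs j`. Almost surely, all but finitely
many of the pairs with `H ^ τ ≤ N j` and `φ j (K, x) = X j` for some `j` satisfy the uniform abc
inequality, with a constant which depends neither on the field nor on `x`.
-/

set_option autoImplicit false

namespace Pool.Agent.Results.MP_6e34ef_nt.RandomResidues

open NumberField IsDedekindDomain Filter Topology MeasureTheory
open Pool.Agent.Results.MP_6e34ef_nt.FewViolators (height conductor rootDisc Viol expo)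

/-- a number field `K` inside the algebraic closure of `ℚ` and an element `x` of `K` -/
abbrev Pt : Type :=
  Σ K : {K : IntermediateField ℚ (AlgebraicClosure ℚ) // NumberField K}, K.1

/-- `log H(x, 1 - x, -1)`, for an element `x` of a number field `K` -/
noncomputable def htK (K : Type) [Field K] [NumberField K] (x : K) : ℝ := height ![x, 1 - x, -1]

/-- `log δ_K + log N(x, 1 - x, -1)`, for an element `x` of a number field `K` -/
noncomputable def dnK (K : Type) [Field K] [NumberField K] (x : K) : ℝ :=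
  rootDisc K + conductor ![x, 1 - x, -1]

/-- `log H(x, 1 - x, -1)` -/
noncomputable def ht (p : Pt) : ℝ :=
  haveI : NumberField p.1.1 := p.1.2
  htK p.1.1 p.2

/-- `log δ_K + log N(x, 1 - x, -1)` -/
noncomputable def dn (p : Pt) : ℝ :=
  haveI : NumberField p.1.1 := p.1.2
  dnK p.1.1 p.2

/-- `K` has degree `n`, and `x ≠ 0, 1` -/
def Deg (n : ℕ) : Set Pt := {p | Module.finrank ℚ p.1.1 = n ∧ p.2 ≠ 0 ∧ p.2 ≠ 1}

theorem height_nonneg {K : Type} [Field K] [NumberField K] (x : K) :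
    0 ≤ height ![x, 1 - x, -1] := by
  unfold height
  refine div_nonneg (add_nonneg (Finset.sum_nonneg fun w _ => mul_nonneg (Nat.cast_nonneg _) ?_)
    (finsum_nonneg fun v => ?_)) (Nat.cast_nonneg _)
  · refine Real.log_nonneg ?_
    refine le_max_of_le_right (le_max_of_le_right ?_)
    have h : w (-1 : K) = 1 := by
      rw [show (-1 : K) = -(1 : K) from rfl]
      have h2 : w (-1 : K) = w 1 := w.1.map_neg 1
      rw [h2, map_one]
    simp [h]
  · refine Real.log_nonneg ?_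
    refine le_max_of_le_right (le_max_of_le_right ?_)
    simp

theorem ht_nonneg (p : Pt) : 0 ≤ ht p := by
  have : NumberField p.1.1 := p.1.2
  exact height_nonneg p.2

theorem dn_nonneg (p : Pt) : 0 ≤ dn p := by
  have : NumberField p.1.1 := p.1.2
  unfold dn dnK rootDisc FewViolators.conductor
  refine add_nonneg (div_nonneg (Real.log_nonneg ?_) (Nat.cast_nonneg _))
    (div_nonneg (finsum_nonneg fun v => finsum_nonneg fun _ => Real.log_natCast_nonneg _)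
      (Nat.cast_nonneg _))
  rw [← Int.cast_abs]
  exact_mod_cast Int.one_le_abs (NumberField.discr_ne_zero p.1.1)

/-- the count of the violators -/
theorem count {n : ℕ} {κ c s : ℝ}
    (H : ∀ δ : ℝ, 0 < δ → ∃ M : ℝ, ∀ B : ℝ, 1 ≤ B → (Viol n κ c B).Finite ∧
      ((Viol n κ c B).ncard : ℝ) ≤ M * B ^ (s + δ)) (ε : ℝ) (hε : 0 < ε) :
    ∃ C : ℝ, ∀ B : ℝ, 1 ≤ B →
      {i : {p : Pt // p ∈ Deg n ∧ κ * dn p + c < ht p} | Real.exp (ht i.1) ≤ B}.Finite ∧
      (({i : {p : Pt // p ∈ Deg n ∧ κ * dn p + c < ht p} |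
        Real.exp (ht i.1) ≤ B}.ncard : ℕ) : ℝ) ≤ C * B ^ (s + ε) := by
  classical
  obtain ⟨M, hM⟩ := H ε hε
  refine ⟨M, fun B hB => ?_⟩
  obtain ⟨hfin, hcard⟩ := hM B hB
  set f : {p : Pt // p ∈ Deg n ∧ κ * dn p + c < ht p} →
      IntermediateField ℚ (AlgebraicClosure ℚ) × AlgebraicClosure ℚ :=
    fun i => (i.1.1.1, (i.1.2 : AlgebraicClosure ℚ)) with hf
  have hinj : Function.Injective f := by
    rintro ⟨⟨⟨K, hK⟩, x⟩, h1⟩ ⟨⟨⟨K', hK'⟩, x'⟩, h2⟩ h
    rw [hf, Prod.mk.injEq] at h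
    obtain ⟨h3, h4⟩ := h
    dsimp only at h3 h4
    subst h3
    have h5 : x = x' := Subtype.ext h4
    subst h5
    rfl
  have himg : f '' {i | Real.exp (ht i.1) ≤ B} ⊆ Viol n κ c B := by
    rintro _ ⟨⟨⟨⟨K, hK⟩, x⟩, ⟨h1, h2, h3⟩, h4⟩, h5, rfl⟩
    refine ⟨hK, x, rfl, h1, h2, h3, ?_, ?_⟩
    · rw [Real.le_log_iff_exp_le (by linarith)]
      exact h5
    · have h6 : κ * (rootDisc K + conductor ![x, 1 - x, -1]) + c < height ![x, 1 - x, -1] := h4
      linarith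
  refine ⟨Set.Finite.of_finite_image (hfin.subset himg) hinj.injOn, ?_⟩
  rw [← Set.ncard_image_of_injective _ hinj]
  refine le_trans ?_ hcard
  exact_mod_cast Set.ncard_le_ncard himg hfin

theorem summable_bad {n : ℕ} {κ c s p : ℝ} (hs : 0 ≤ s)
    (H : ∀ δ : ℝ, 0 < δ → ∃ M : ℝ, ∀ B : ℝ, 1 ≤ B → (Viol n κ c B).Finite ∧
      ((Viol n κ c B).ncard : ℝ) ≤ M * B ^ (s + δ)) (hp : s < p) :
    Summable fun i : {p : Pt // p ∈ Deg n ∧ κ * dn p + c < ht p} =>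
      Real.exp (ht i.1) ^ (-p) := by
  obtain ⟨C, hC⟩ := count H ((p - s) / 2) (by linarith)
  exact Pool.Agent.R479.DA.summable_heights
    (fun i : {p : Pt // p ∈ Deg n ∧ κ * dn p + c < ht p} => Real.exp (ht i.1))
    (fun i => Real.one_le_exp (ht_nonneg i.1)) (s := s + (p - s) / 2) (p := p) (C := C)
    (by linarith) (by linarith) hC

section main

variable {J Ω : Type} [MeasurableSpace Ω] {P : Measure Ω} {Rs : J → Type}
  {N : J → ℝ} {X : ∀ j : J, Ω → Rs j} {φ : ∀ j : J, Pt → Rs j}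

theorem exp_rpow (p : Pt) (τ : ℝ) : Real.exp (ht p) ^ τ = Real.exp (τ * ht p) := by
  rw [← Real.exp_mul, mul_comm]

theorem part (h0 : ∀ j, 1 ≤ N j) {s d C : ℝ} (hs : s ≤ d)
    (hN : Summable fun j => N j ^ (-s))
    (hX : ∀ j, ∀ r : Rs j, P {ω | X j ω = r} ≤ ENNReal.ofReal (C * N j ^ (-d)))
    {n : ℕ} {κ c q τ η : ℝ} (hq : 0 ≤ q)
    (H : ∀ δ : ℝ, 0 < δ → ∃ M : ℝ, ∀ B : ℝ, 1 ≤ B → (Viol n κ c B).Finite ∧
      ((Viol n κ c B).ncard : ℝ) ≤ M * B ^ (q + δ)) (hη : 0 ≤ η) (h : q + η < (d - s) * τ) :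
    (∀ᵐ ω ∂P, {i : J × Pt | (i.2 ∈ Deg n ∧ κ * dn i.2 + c < ht i.2) ∧
      Real.exp (τ * ht i.2) ≤ N i.1 ∧ φ i.1 i.2 = X i.1 ω}.Finite) ∧
    ∃ B : ℝ, ∀ y : ℝ, 1 ≤ y →
      P {ω | ∃ i : J × Pt, (i.2 ∈ Deg n ∧ κ * dn i.2 + c < ht i.2) ∧
        y ≤ Real.exp (ht i.2) ∧ Real.exp (τ * ht i.2) ≤ N i.1 ∧ φ i.1 i.2 = X i.1 ω} ≤
        ENNReal.ofReal (B * y ^ (-η)) := by
  have h1 := Pool.Agent.R909.RC.main_subtype (P := P) (N := N) (X := X) (φ := φ) (T := Pt)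
    (H := fun p => Real.exp (ht p))
    (Q := fun p => p ∈ Deg n ∧ κ * dn p + c < ht p)
    (fun p _ => Real.one_le_exp (ht_nonneg p)) h0 hs hX hN (p := (d - s) * τ - η) (τ := τ) hη
    (by linarith) (summable_bad hq H (by linarith))
  simpa only [exp_rpow] using h1

/-- all degrees, exponents and constants at once -/
theorem ae_all (h0 : ∀ j, 1 ≤ N j) {s d C : ℝ} (hs : s < d)
    (hN : Summable fun j => N j ^ (-s))
    (hX : ∀ j, ∀ r : Rs j, P {ω | X j ω = r} ≤ ENNReal.ofReal (C * N j ^ (-d)))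
    {e : ℕ → ℝ} (he : ∀ n, 0 ≤ e n)
    (H : ∀ n : ℕ, 2 ≤ n → ∀ κ c δ : ℝ, 0 < κ → 0 < δ → ∃ M : ℝ, ∀ B : ℝ, 1 ≤ B →
      (Viol n κ c B).Finite ∧ ((Viol n κ c B).ncard : ℝ) ≤ M * B ^ ((n : ℝ) * e n / κ + δ)) :
    ∀ᵐ ω ∂P, ∀ (n : ℕ) (κ τ c : ℝ), 2 ≤ n → 0 < κ → n * e n < (d - s) * (κ * τ) →
      {i : J × Pt | (i.2 ∈ Deg n ∧ κ * dn i.2 + c < ht i.2) ∧
        Real.exp (τ * ht i.2) ≤ N i.1 ∧ φ i.1 i.2 = X i.1 ω}.Finite := by
  have hds : 0 < d - s := by linarith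
  have h2 : ∀ᵐ ω ∂P, ∀ (n : ℕ) (a b : ℚ) (k : ℕ), 2 ≤ n → 0 < a →
      n * e n < (d - s) * ((a : ℝ) * b) →
      {i : J × Pt | (i.2 ∈ Deg n ∧ (a : ℝ) * dn i.2 + -(k : ℝ) < ht i.2) ∧
        Real.exp ((b : ℝ) * ht i.2) ≤ N i.1 ∧ φ i.1 i.2 = X i.1 ω}.Finite := by
    rw [ae_all_iff]
    intro n
    rw [ae_all_iff]
    intro a
    rw [ae_all_iff]
    intro b
    rw [ae_all_iff]
    intro k
    by_cases h : 2 ≤ n ∧ 0 < a ∧ n * e n < (d - s) * ((a : ℝ) * b)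
    · obtain ⟨hn, ha, hab⟩ := h
      have ha' : (0 : ℝ) < a := by exact_mod_cast ha
      have h3 := (part (φ := φ) h0 hs.le hN hX (n := n) (κ := a) (c := -(k : ℝ))
        (q := (n : ℝ) * e n / a) (τ := b) (η := 0)
        (div_nonneg (mul_nonneg (Nat.cast_nonneg _) (he n)) ha'.le)
        (fun δ hδ => H n hn a (-(k : ℝ)) δ ha' hδ) le_rfl (by
          rw [add_zero, div_lt_iff₀ ha']
          linarith)).1
      filter_upwards [h3] with ω hω
      exact fun _ _ _ => hω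
    · refine Filter.Eventually.of_forall fun ω hn ha hab => ?_
      exact absurd ⟨hn, ha, hab⟩ h
  filter_upwards [h2] with ω hω
  intro n κ τ c hn hκ hlt
  have hne : 0 ≤ (n : ℝ) * e n := mul_nonneg (Nat.cast_nonneg _) (he n)
  have hτ : 0 < τ := by
    by_contra hcon
    push Not at hcon
    have : (d - s) * (κ * τ) ≤ 0 :=
      mul_nonpos_of_nonneg_of_nonpos hds.le (mul_nonpos_of_nonneg_of_nonpos hκ.le hcon)
    linarith
  -- a rational `b` below `τ` and a rational `a` below `κ`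
  have hb : (n : ℝ) * e n / ((d - s) * κ) < τ := by
    rw [div_lt_iff₀ (by positivity)]
    linarith
  obtain ⟨b, hb1, hb2⟩ := exists_rat_btwn (max_lt hb hτ)
  have hb0 : (0 : ℝ) < b := lt_of_le_of_lt (le_max_right _ _) hb1
  have hb3 : (n : ℝ) * e n / ((d - s) * κ) < b := lt_of_le_of_lt (le_max_left _ _) hb1
  have ha : (n : ℝ) * e n / ((d - s) * b) < κ := by
    rw [div_lt_iff₀ (by positivity)] at hb3 ⊢
    linarith
  obtain ⟨a, ha1, ha2⟩ := exists_rat_btwn (max_lt ha hκ)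
  have ha0 : (0 : ℝ) < a := lt_of_le_of_lt (le_max_right _ _) ha1
  have ha3 : (n : ℝ) * e n / ((d - s) * b) < a := lt_of_le_of_lt (le_max_left _ _) ha1
  obtain ⟨k, hk⟩ := exists_nat_ge (-c)
  refine (hω n a b k hn (by exact_mod_cast ha0) ?_).subset ?_
  · rw [div_lt_iff₀ (by positivity)] at ha3
    linarith
  · rintro ⟨j, p⟩ ⟨⟨h3, h4⟩, h5, h6⟩
    refine ⟨⟨h3, ?_⟩, ?_, h6⟩
    · have h7 : (a : ℝ) * dn p ≤ κ * dn p := mul_le_mul_of_nonneg_right ha2.le (dn_nonneg p)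
      dsimp only at h4 ⊢
      linarith
    · refine le_trans (Real.exp_le_exp.2 ?_) h5
      exact mul_le_mul_of_nonneg_right hb2.le (ht_nonneg p)

/-- the inequality with some exponent and constant, for all points -/
theorem ae_weak (h0 : ∀ j, 1 ≤ N j) {s d C : ℝ} (hs : s < d)
    (hN : Summable fun j => N j ^ (-s))
    (hX : ∀ j, ∀ r : Rs j, P {ω | X j ω = r} ≤ ENNReal.ofReal (C * N j ^ (-d)))
    {e : ℕ → ℝ} (he : ∀ n, 0 ≤ e n)
    (H : ∀ n : ℕ, 2 ≤ n → ∀ κ c δ : ℝ, 0 < κ → 0 < δ → ∃ M : ℝ, ∀ B : ℝ, 1 ≤ B →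
      (Viol n κ c B).Finite ∧ ((Viol n κ c B).ncard : ℝ) ≤ M * B ^ ((n : ℝ) * e n / κ + δ)) :
    ∀ᵐ ω ∂P, ∀ (n : ℕ) (τ : ℝ), 2 ≤ n → 0 < τ → ∃ κ A : ℝ, ∀ (j : J), ∀ p ∈ Deg n,
      Real.exp (τ * ht p) ≤ N j → φ j p = X j ω → ht p ≤ κ * dn p + A := by
  have hds : 0 < d - s := by linarith
  filter_upwards [ae_all (φ := φ) h0 hs hN hX he H] with ω hω
  intro n τ hn hτ
  obtain ⟨κ, hκ⟩ := exists_gt (max 1 ((n : ℝ) * e n / ((d - s) * τ)))
  have hκ1 : 1 < κ := lt_of_le_of_lt (le_max_left _ _) hκ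
  have hκ2 := lt_of_le_of_lt (le_max_right _ _) hκ
  rw [div_lt_iff₀ (by positivity)] at hκ2
  have h1 := hω n κ τ 0 hn (by linarith) (by linarith)
  obtain ⟨A, hA⟩ := (h1.image fun i => ht i.2).bddAbove
  refine ⟨κ, max A 0, fun j p hp h2 h3 => ?_⟩
  have hd := mul_nonneg (show (0 : ℝ) ≤ κ by linarith) (dn_nonneg p)
  by_cases h4 : κ * dn p + 0 < ht p
  · have h5 : ht p ≤ A := hA ⟨(j, p), ⟨⟨hp, h4⟩, h2, h3⟩, rfl⟩
    have := le_max_left A 0
    linarith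
  · have := le_max_right A 0
    linarith

end main

section degrees

/-- the constants for all degrees, for an abstract family -/
theorem exists_g_abs {T : Type} (dg : T → ℕ) (h : T → ℝ) (D : ℕ → T → Prop) (a : ℕ → ℝ)
    (hsum : ∀ n, 2 ≤ n → Summable fun i : {t : T // D n t} => Real.exp (h i.1) ^ (-(a n)))
    {θ : ℝ} (hθ : 0 < θ) :
    ∃ g : ℕ → ℝ, (∀ n, 1 ≤ g n) ∧ Summable fun i : {t : T // 2 ≤ dg t ∧ D (dg t) t} =>
      (g (dg i.1) * Real.exp (a (dg i.1) / θ * h i.1)) ^ (-θ) := by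
  classical
  set S : ℕ → ℝ := fun n => ∑' i : {t : T // D n t}, Real.exp (h i.1) ^ (-(a n)) with hS
  have hS0 : ∀ n, 0 ≤ S n := fun n => tsum_nonneg fun i => Real.rpow_nonneg (Real.exp_pos _).le _
  refine ⟨fun n => (2 ^ n * (1 + S n)) ^ (1 / θ), fun n => ?_, ?_⟩
  · refine Real.one_le_rpow ?_ (by positivity)
    have h1 : (1 : ℝ) ≤ 2 ^ n := one_le_pow₀ one_le_two
    nlinarith [hS0 n]
  · set F : {t : T // 2 ≤ dg t ∧ D (dg t) t} → (Σ n : {n : ℕ // 2 ≤ n}, {t : T // D n.1 t}) :=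
      fun i => ⟨⟨dg i.1, i.2.1⟩, ⟨i.1, i.2.2⟩⟩ with hF
    have hFinj : Function.Injective F := by
      rintro ⟨p, hp⟩ ⟨q, hq⟩ h
      have h1 : (F ⟨p, hp⟩).2.1 = (F ⟨q, hq⟩).2.1 := by rw [h]
      exact Subtype.ext h1
    set G : (Σ n : {n : ℕ // 2 ≤ n}, {t : T // D n.1 t}) → ℝ := fun z =>
      (2 ^ z.1.1 * (1 + S z.1.1))⁻¹ * Real.exp (h z.2.1) ^ (-(a z.1.1)) with hG
    have hval : ∀ i, (((2 : ℝ) ^ (dg i.1) * (1 + S (dg i.1))) ^ (1 / θ) *
        Real.exp (a (dg i.1) / θ * h i.1)) ^ (-θ) = G (F i) := by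
      intro i
      have h1 : (0 : ℝ) < 2 ^ (dg i.1) * (1 + S (dg i.1)) := by
        have := hS0 (dg i.1)
        positivity
      have e1 : (((2 : ℝ) ^ (dg i.1) * (1 + S (dg i.1))) ^ (1 / θ)) ^ (-θ) =
          (2 ^ (dg i.1) * (1 + S (dg i.1)))⁻¹ := by
        rw [← Real.rpow_mul h1.le, show 1 / θ * -θ = -1 by field_simp, Real.rpow_neg_one]
      have e2 : Real.exp (a (dg i.1) / θ * h i.1) ^ (-θ) =
          Real.exp (h i.1) ^ (-(a (dg i.1))) := by
        rw [← Real.exp_mul, ← Real.exp_mul]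
        congr 1
        field_simp
      rw [Real.mul_rpow (Real.rpow_nonneg h1.le _) (Real.exp_pos _).le, e1, e2]
    have hG0 : ∀ z, 0 ≤ G z := by
      intro z
      have := hS0 z.1.1
      have h2 : 0 ≤ Real.exp (h z.2.1) ^ (-(a z.1.1)) := Real.rpow_nonneg (Real.exp_pos _).le _
      have h3 : (0 : ℝ) ≤ (2 ^ z.1.1 * (1 + S z.1.1))⁻¹ := by positivity
      exact mul_nonneg h3 h2
    have hbig : Summable G := by
      refine (summable_sigma_of_nonneg hG0).2 ⟨?_, ?_⟩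
      · rintro ⟨n, hn⟩
        have h5 := (hsum n hn).mul_left ((2 ^ n * (1 + S n))⁻¹)
        exact h5
      · have hle : ∀ n : {n : ℕ // 2 ≤ n}, ∑' i : {t : T // D n.1 t}, G ⟨n, i⟩ ≤
            (1 / 2) ^ n.1 := by
          rintro ⟨n, hn⟩
          have h4 : ∑' i : {t : T // D n t}, G ⟨⟨n, hn⟩, i⟩ = (2 ^ n * (1 + S n))⁻¹ * S n := by
            show ∑' i : {t : T // D n t}, (2 ^ n * (1 + S n))⁻¹ * Real.exp (h i.1) ^ (-(a n)) = _
            rw [tsum_mul_left]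
          have h1 := hS0 n
          refine (le_of_eq h4).trans ?_
          rw [mul_inv, mul_assoc, one_div, inv_pow]
          refine mul_le_of_le_one_right (by positivity) ?_
          rw [inv_mul_le_iff₀ (by positivity)]
          linarith
        refine Summable.of_nonneg_of_le (fun n => tsum_nonneg fun i => hG0 _) hle ?_
        exact (summable_geometric_of_lt_one (by norm_num) (by norm_num)).comp_injective
          Subtype.val_injective
    refine (hbig.comp_injective hFinj).congr fun i => ?_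
    exact (hval i).symm

/-- the degree of the field -/
noncomputable def deg (p : Pt) : ℕ := Module.finrank ℚ p.1.1

/-- the constants for all degrees -/
theorem exists_g {e : ℕ → ℝ} (he : ∀ n, 0 ≤ e n)
    (H : ∀ n : ℕ, 2 ≤ n → ∀ κ c δ : ℝ, 0 < κ → 0 < δ → ∃ M : ℝ, ∀ B : ℝ, 1 ≤ B →
      (Viol n κ c B).Finite ∧ ((Viol n κ c B).ncard : ℝ) ≤ M * B ^ ((n : ℝ) * e n / κ + δ))
    {κ θ : ℝ} (hκ : 0 < κ) (hθ : 0 < θ) :
    ∃ g : ℕ → ℝ, (∀ n, 1 ≤ g n) ∧
      Summable fun i : {p : Pt // 2 ≤ deg p ∧ (p ∈ Deg (deg p) ∧ κ * dn p + 0 < ht p)} =>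
        (g (deg i.1) * Real.exp ((deg i.1 * e (deg i.1) / κ + 1) / θ * ht i.1)) ^ (-θ) :=
  exists_g_abs deg ht (fun n p => p ∈ Deg n ∧ κ * dn p + 0 < ht p)
    (fun n => (n : ℝ) * e n / κ + 1)
    (fun n hn => summable_bad (div_nonneg (mul_nonneg (Nat.cast_nonneg _) (he n)) hκ.le)
      (fun δ hδ => H n hn κ 0 δ hκ hδ) (by linarith)) hθ

end degrees

/-- The hypotheses on the random residues `X j`: `N j ≥ 1`, the sum of the `N j ^ (-s)` converges, and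
each value of `X j` has probability at most `C * N j ^ (-d)`. -/
def Spread {J Ω : Type} [MeasurableSpace Ω] (P : Measure Ω) {Rs : J → Type} (N : J → ℝ)
    (X : ∀ j : J, Ω → Rs j) (s d C : ℝ) : Prop :=
  (∀ j, 1 ≤ N j) ∧ (Summable fun j => N j ^ (-s)) ∧
    ∀ j, ∀ r : Rs j, P {ω | X j ω = r} ≤ ENNReal.ofReal (C * N j ^ (-d))

/-- **Theorem.** There is a function `e ≥ 0` with `e n ≤ expo n` for `n ≥ 2` (so `e 2 ≤ 1`,
`e 3 ≤ 5 / 4`, `e n ≤ (n + 2) / 4` for primes) and `e n = O(log ^ 2 n)` such that, for all random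
residues with `s < d` and all maps `φ j`:

(1) almost surely, for all `n ≥ 2`, `κ > 0`, `τ` with `n e(n) < (d - s) κ τ` and all `c`, all but
finitely many of the `(j, K, x)`, `K` ANY number field of degree `n`, `x ∈ K`, `x ≠ 0, 1`, with
`H ^ τ ≤ N j` and `φ j (K, x) = X j` satisfy `log H ≤ κ (log δ_K + log N) + c`;

(2) if `n e(n) / κ + η < (d - s) τ`, the probability that there is an exception with `H ≥ y` is at
most `B y ^ (-η)`;

(3) almost surely, for all `n ≥ 2` and `τ > 0` there are `κ` and `A` with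
`log H ≤ κ (log δ_K + log N) + A` for ALL of these `(j, K, x)`;

(4) for all `κ, θ > 0` there is `g ≥ 1` such that, if `s + θ ≤ d`, almost surely there is `A` with
`log H ≤ κ (log δ_K + log N) + A` for ALL number fields `K`, of ANY degree `n ≥ 2`, and all
`x ≠ 0, 1` in `K` with `φ j (K, x) = X j` for some `j` with
`g(n) H ^ ((n e(n) / κ + 1) / θ) ≤ N j`. -/
theorem result :
    ∃ e : ℕ → ℝ, (∀ n, 0 ≤ e n) ∧ (∀ n : ℕ, 2 ≤ n → e n ≤ expo n) ∧
      (∀ c : ℝ, 1 / (8 * (Real.log 2) ^ 2) < c →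
        ∀ᶠ n : ℕ in Filter.atTop, e n ≤ c * (Real.log n) ^ 2) ∧
      (∀ (J Ω : Type) [MeasurableSpace Ω] (P : Measure Ω) (Rs : J → Type) (N : J → ℝ)
        (X : ∀ j : J, Ω → Rs j) (φ : ∀ j : J, Pt → Rs j) (s d C : ℝ), s < d →
        Spread P N X s d C →
        (∀ᵐ ω ∂P, ∀ (n : ℕ) (κ τ c : ℝ), 2 ≤ n → 0 < κ → n * e n < (d - s) * (κ * τ) →
          {i : J × Pt | (i.2 ∈ Deg n ∧ κ * dn i.2 + c < ht i.2) ∧
            Real.exp (τ * ht i.2) ≤ N i.1 ∧ φ i.1 i.2 = X i.1 ω}.Finite) ∧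
        (∀ (n : ℕ) (κ τ c η : ℝ), 2 ≤ n → 0 < κ → 0 ≤ η → n * e n / κ + η < (d - s) * τ →
          ∃ B : ℝ, ∀ y : ℝ, 1 ≤ y →
            P {ω | ∃ i : J × Pt, (i.2 ∈ Deg n ∧ κ * dn i.2 + c < ht i.2) ∧
              y ≤ Real.exp (ht i.2) ∧ Real.exp (τ * ht i.2) ≤ N i.1 ∧ φ i.1 i.2 = X i.1 ω} ≤
              ENNReal.ofReal (B * y ^ (-η))) ∧
        (∀ᵐ ω ∂P, ∀ (n : ℕ) (τ : ℝ), 2 ≤ n → 0 < τ → ∃ κ A : ℝ, ∀ (j : J), ∀ p ∈ Deg n,
          Real.exp (τ * ht p) ≤ N j → φ j p = X j ω → ht p ≤ κ * dn p + A)) ∧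
      (∀ κ θ : ℝ, 0 < κ → 0 < θ → ∃ g : ℕ → ℝ, (∀ n, 1 ≤ g n) ∧
        ∀ (J Ω : Type) [MeasurableSpace Ω] (P : Measure Ω) (Rs : J → Type) (N : J → ℝ)
          (X : ∀ j : J, Ω → Rs j) (φ : ∀ j : J, Pt → Rs j) (s d C : ℝ), s + θ ≤ d →
          Spread P N X s d C →
          ∀ᵐ ω ∂P, ∃ A : ℝ, ∀ (n : ℕ), 2 ≤ n → ∀ (j : J), ∀ p ∈ Deg n,
            g n * Real.exp ((n * e n / κ + 1) / θ * ht p) ≤ N j → φ j p = X j ω →
              ht p ≤ κ * dn p + A) := by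
  obtain ⟨e, he1, he2, he3⟩ := FewViolators.result.1
  have hexpo : ∀ n : ℕ, 0 ≤ expo n := fun n => by
    unfold FewViolators.expo
    positivity
  have H : ∀ n : ℕ, 2 ≤ n → ∀ κ c δ : ℝ, 0 < κ → 0 < δ → ∃ M : ℝ, ∀ B : ℝ, 1 ≤ B →
      (Viol n κ c B).Finite ∧
        ((Viol n κ c B).ncard : ℝ) ≤ M * B ^ ((n : ℝ) * max (e n) 0 / κ + δ) := by
    intro n hn κ c δ hκ hδ
    obtain ⟨M, hM⟩ := he3 n hn κ c δ hκ hδ
    refine ⟨|M|, fun B hB => ⟨(hM B hB).1, (hM B hB).2.trans ?_⟩⟩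
    have hB0 : 0 < B := by linarith
    refine (mul_le_mul_of_nonneg_right (le_abs_self M) (Real.rpow_nonneg hB0.le _)).trans ?_
    refine mul_le_mul_of_nonneg_left ?_ (abs_nonneg M)
    refine Real.rpow_le_rpow_of_exponent_le hB ?_
    have h1 : (n : ℝ) * e n / κ ≤ (n : ℝ) * max (e n) 0 / κ :=
      div_le_div_of_nonneg_right (mul_le_mul_of_nonneg_left (le_max_left _ _)
        (Nat.cast_nonneg _)) hκ.le
    linarith
  have hm : ∀ n, 0 ≤ max (e n) 0 := fun n => le_max_right _ _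
  refine ⟨fun n => max (e n) 0, hm, fun n hn => max_le (he2 n hn) (hexpo n), fun c hc => ?_,
    ?_, ?_⟩
  · have hc0 : 0 < c := lt_trans (by
      have := Real.log_pos (by norm_num : (1 : ℝ) < 2)
      positivity) hc
    filter_upwards [he1 c hc] with n hn
    exact max_le hn (by positivity)
  · intro J Ω _ P Rs N X φ s d C hsd hsp
    obtain ⟨h0, hN, hX⟩ := hsp
    refine ⟨ae_all h0 hsd hN hX hm H, fun n κ τ c η hn hκ hη h => ?_, ae_weak h0 hsd hN hX hm H⟩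
    exact (part h0 hsd.le hN hX (div_nonneg (mul_nonneg (Nat.cast_nonneg _) (hm n)) hκ.le)
      (fun δ hδ => H n hn κ c δ hκ hδ) hη h).2
  · intro κ θ hκ hθ
    obtain ⟨g, hg1, hg2⟩ := exists_g hm H hκ hθ
    refine ⟨g, hg1, ?_⟩
    intro J Ω _ P Rs N X φ s d C hsd hsp
    obtain ⟨h0, hN, hX⟩ := hsp
    have h1 := (Pool.Agent.R909.RC.main_subtype (P := P) (N := N) (X := X) (φ := φ) (T := Pt)
      (H := fun p => g (deg p) * Real.exp ((deg p * max (e (deg p)) 0 / κ + 1) / θ * ht p))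
      (Q := fun p => 2 ≤ deg p ∧ p ∈ Deg (deg p) ∧ κ * dn p + 0 < ht p)
      (fun p _ => by
        have h2 : 0 ≤ (deg p * max (e (deg p)) 0 / κ + 1) / θ * ht p :=
          mul_nonneg (div_nonneg (add_nonneg (div_nonneg (mul_nonneg (Nat.cast_nonneg _)
            (hm _)) hκ.le) zero_le_one) hθ.le) (ht_nonneg p)
        have h3 := Real.one_le_exp h2
        nlinarith [hg1 (deg p)]) h0 (by linarith : s ≤ d) hX hN (p := θ) (τ := 1) (η := 0) le_rfl
      (by linarith) hg2).1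
    filter_upwards [h1] with ω hω
    obtain ⟨A, hA⟩ := (hω.image fun i => ht i.2).bddAbove
    refine ⟨max A 0, fun n hn j p hp h2 h3 => ?_⟩
    have hd := mul_nonneg hκ.le (dn_nonneg p)
    by_cases h4 : κ * dn p + 0 < ht p
    · have hdeg : deg p = n := hp.1
      have h5 : ht p ≤ A := by
        refine hA ⟨(j, p), ⟨⟨?_, ?_, h4⟩, ?_, h3⟩, rfl⟩
        · dsimp only
          rw [hdeg]
          exact hn
        · dsimp only
          rw [hdeg]
          exact hp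
        · dsimp only
          rw [Real.rpow_one, hdeg]
          exact h2
      have := le_max_left A 0
      linarith
    · have := le_max_right A 0
      linarith

end Pool.Agent.Results.MP_6e34ef_nt.RandomResidues
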