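import Pool.Agent.Results.MP_6e34ef_nt.UniformAbcWindows
import Pool.Agent.R482.ST.Star

/-!
# The uniform abc inequality for all numbers of degree `n` with height near powers, orbits and other sequences

Let `f_n`, `n = 0, 1, 2, …`, be positive functions on `(a, ∞)`, `a ≥ 0`, such that `f_n(t) / t` is nondecreasing, and such
that the sequence `f_n(t)` has exponent of convergence at most `τ` for each `t > a`: for instance `f_n(t) = t ^ (v_n)` for
exponents `v_n ≥ 1` (`τ = 0`; all powers, the powers `t ^ (3 ^ n)` of Mills, …), the orbits `f_n(t) = g (g (⋯ g (t)))` of any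
map `g` with `g(t) > t` and `g(t) / t` nondecreasing (`τ = 0`; for instance of `t² + c`), and `f_n(t) = v_n t`.
Let `n ≥ 2`, `κ > 0` and `θ < 1`. For all `α > a` outside a set of Hausdorff dimension at most
`(e n / ((n + 1) κ) + τ) / (1 - θ)` and all `c`, `κ'`, for all but finitely many `k`, for ALL number fields `K` of degree `n`
and ALL `x ∈ K`, `x ≠ 0, 1`, such that the height `H = H (x, 1 - x, -1)` satisfies
`|H ^ (n (n + 1)) - f_k(α)| ≤ κ' f_k(α) ^ θ` the inequality `H ≤ exp (- c) (δ_K N) ^ κ` holds. Letting `κ` tend to infinity we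
find for all `α` outside a set of dimension at most `τ / (1 - θ)`, and for ALL `n ≥ 2`, constants `κ` and `C` such that
`H ≤ exp (C) (δ_K N) ^ κ` for ALL numbers of degree `n` in the windows.
-/

set_option autoImplicit false

namespace Pool.Agent.Results.MP_6e34ef_nt.StarshapedAbc

open NumberField IsDedekindDomain Filter Topology
open FewViolators (height conductor rootDisc expo Viol)
open UniformAbcWindows (ht Exc count)

/-- the functions `f n` are positive on `(a, ∞)`, `a ≥ 0`, and `f n x / x` is nondecreasing there -/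
def Starshaped (a : ℝ) (f : ℕ → ℝ → ℝ) : Prop :=
  0 ≤ a ∧ ∀ n : ℕ, ∀ x y : ℝ, a < x → x ≤ y → 0 < f n x ∧ f n x / x ≤ f n y / y

/-- for each `x > a` the exponent of convergence of the sequence `f n x` is at most `τ` -/
def ExpLe (a : ℝ) (f : ℕ → ℝ → ℝ) (τ : ℝ) : Prop :=
  ∀ x : ℝ, a < x → ∀ t : ℝ, τ < t → Summable (fun n : ℕ => (f n x) ^ (-t))

lemma win {n : ℕ} (hn : 2 ≤ n) {κ e : ℝ} (hκ : 0 < κ)
    (H : ∀ c δ : ℝ, 0 < δ → ∃ M : ℝ, ∀ B : ℝ, 1 ≤ B → (Viol n κ c B).Finite ∧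
      ((Viol n κ c B).ncard : ℝ) ≤ M * B ^ ((n : ℝ) * e / κ + δ))
    {a : ℝ} {f : ℕ → ℝ → ℝ} {τ θ : ℝ} (hv : Starshaped a f) (hτ : 0 ≤ τ) (hE : ExpLe a f τ) (hθ : θ < 1) :
    ∃ E : Set ℝ, dimH E ≤ ENNReal.ofReal ((max e 0 / ((n + 1) * κ) + τ) / (1 - θ)) ∧
      ∀ α : ℝ, a < α → α ∉ E → ∀ c κ' : ℝ, ∃ k₀ : ℕ, ∀ k : ℕ, k₀ ≤ k → ∀ p ∈ Exc n κ (-c),
        κ' * (f k α) ^ θ < |Real.exp (ht p) ^ (n * (n + 1)) - f k α| := by
  have hall : ∀ j : ℕ, ∃ E : Set ℝ, dimH E ≤ ENNReal.ofReal ((max e 0 / ((n + 1) * κ) + τ) / (1 - θ)) ∧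
      ∀ α : ℝ, a < α → α ∉ E → ∀ κ' : ℝ, ∃ n0 : ℕ, ∀ k : ℕ, n0 ≤ k → ∀ p ∈ Exc n κ (-(j : ℝ)),
        κ' * (f k α) ^ θ < |Real.exp (ht p) ^ (n * (n + 1)) - f k α| := fun j =>
    Pool.Agent.R482.ST.windows (Exc n κ (-(j : ℝ))) (fun p => Real.exp (ht p) ^ (n * (n + 1))) hv hτ hE
      (div_nonneg (le_max_right _ _) (by positivity)) hθ (fun ε hε => count hn hκ (H (-(j : ℝ))) ε hε)
  choose G hG1 hG2 using hall
  refine ⟨⋃ j, G j, ?_, fun α hα hαE c κ' => ?_⟩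
  · rw [dimH_iUnion]
    exact iSup_le hG1
  · obtain ⟨j, hj⟩ := exists_nat_ge c
    obtain ⟨k₀, hk⟩ := hG2 j α hα (fun h => hαE (Set.mem_iUnion.2 ⟨j, h⟩)) κ'
    refine ⟨k₀, fun k hk1 p hp => hk k hk1 p ?_⟩
    obtain ⟨h1, h2, h3, h4⟩ := hp
    refine ⟨h1, h2, h3, lt_of_le_of_lt ?_ h4⟩
    linarith

lemma nonneg {K : Type} [Field K] [NumberField K] (x : Fin 3 → K) : 0 ≤ rootDisc K + conductor x :=
  UniformAbcWindows.nonneg x

/-- **Theorem.** There is a function `e ≥ 0` with `e n ≤ expo n` for `n ≥ 2` (so `e 2 ≤ 1`, `e 3 ≤ 5 / 4`,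
`e n ≤ (n + 2) / 4` for primes) and `e n = O (log ^ 2 n)` such that for all starshaped functions `f` on `(a, ∞)` of exponent
of convergence at most `τ ≥ 0` and `θ < 1`: (1) For all `n ≥ 2` and `κ > 0` there is a set `E` of Hausdorff dimension at most
`(e n / ((n + 1) κ) + τ) / (1 - θ)` such that for each `α > a` outside `E` and all `c`, `κ'`, for all but finitely many `k`,
for ALL number fields `K` of degree `n` (in the algebraic closure of `ℚ`) and ALL `x ∈ K`, `x ≠ 0, 1`, for which the height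
`H = exp (height ![x, 1 - x, -1])` satisfies `|H ^ (n (n + 1)) - f_k(α)| ≤ κ' f_k(α) ^ θ` one has
`log H ≤ κ (log δ_K + log N) - c`. (2) There is a set `E` of dimension at most `τ / (1 - θ)` such that for each `α > a`
outside `E`, each `κ'` and ALL `n ≥ 2` there are `κ` and `C` with `log H ≤ κ (log δ_K + log N) + C` for ALL number fields `K`
of degree `n` and ALL `x ∈ K`, `x ≠ 0, 1`, with `|H ^ (n (n + 1)) - f_k(α)| ≤ κ' f_k(α) ^ θ` for some `k`. (3) The functions `v_n x`, `v_n > 0`, are starshaped on `(0, ∞)`, of exponent `τ` if `v` has exponent of convergence at most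
`τ`; the functions `x ^ (v_n)`, `v_n ≥ 1`, are starshaped on `(1, ∞)`, of exponent `0` if the sums of `exp (-t v_n)` converge
for `t > 0`; and the iterates of a map `g` with `g(x) > x` for `x > a` and `g(x) / x` nondecreasing are starshaped on
`(a, ∞)`, of exponent `0`. -/
theorem result :
    (∃ e : ℕ → ℝ, (∀ n, 0 ≤ e n) ∧ (∀ n : ℕ, 2 ≤ n → e n ≤ expo n) ∧
      (∀ c : ℝ, 1 / (8 * (Real.log 2) ^ 2) < c → ∀ᶠ n : ℕ in Filter.atTop, e n ≤ c * (Real.log n) ^ 2) ∧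
      ∀ (a : ℝ) (f : ℕ → ℝ → ℝ) (τ θ : ℝ), Starshaped a f → 0 ≤ τ → ExpLe a f τ → θ < 1 → ∀ n : ℕ, 2 ≤ n → ∀ κ : ℝ, 0 < κ →
        ∃ E : Set ℝ, dimH E ≤ ENNReal.ofReal ((e n / ((n + 1) * κ) + τ) / (1 - θ)) ∧
          ∀ α : ℝ, a < α → α ∉ E → ∀ c κ' : ℝ, ∃ k₀ : ℕ, ∀ k : ℕ, k₀ ≤ k →
            ∀ (K : IntermediateField ℚ (AlgebraicClosure ℚ)) [NumberField K] (x : K),
              Module.finrank ℚ K = n → x ≠ 0 → x ≠ 1 →
              |Real.exp (height ![x, 1 - x, -1]) ^ (n * (n + 1)) - f k α| ≤ κ' * (f k α) ^ θ →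
                height ![x, 1 - x, -1] ≤ κ * (rootDisc K + conductor ![x, 1 - x, -1]) - c) ∧
    (∀ (a : ℝ) (f : ℕ → ℝ → ℝ) (τ θ : ℝ), Starshaped a f → 0 ≤ τ → ExpLe a f τ → θ < 1 →
        ∃ E : Set ℝ, dimH E ≤ ENNReal.ofReal (τ / (1 - θ)) ∧
          ∀ α : ℝ, a < α → α ∉ E → ∀ κ' : ℝ, ∀ n : ℕ, 2 ≤ n → ∃ κ C : ℝ, ∀ (k : ℕ)
            (K : IntermediateField ℚ (AlgebraicClosure ℚ)) [NumberField K] (x : K),
              Module.finrank ℚ K = n → x ≠ 0 → x ≠ 1 →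
              |Real.exp (height ![x, 1 - x, -1]) ^ (n * (n + 1)) - f k α| ≤ κ' * (f k α) ^ θ →
                height ![x, 1 - x, -1] ≤ κ * (rootDisc K + conductor ![x, 1 - x, -1]) + C) ∧
    (∀ (v : ℕ → ℝ) (τ : ℝ), (∀ n, 0 < v n) → (∀ t : ℝ, τ < t → Summable (fun n : ℕ => (v n) ^ (-t))) →
      Starshaped 0 (fun n x => v n * x) ∧ ExpLe 0 (fun n x => v n * x) τ) ∧
    (∀ v : ℕ → ℝ, (∀ n, 1 ≤ v n) → (∀ t : ℝ, 0 < t → Summable fun n : ℕ => Real.exp (-(t * v n))) →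
      Starshaped 1 (fun n x => x ^ (v n)) ∧ ExpLe 1 (fun n x => x ^ (v n)) 0) ∧
    (∀ (a : ℝ) (g : ℝ → ℝ), 0 ≤ a → (∀ x y : ℝ, a < x → x ≤ y → g x / x ≤ g y / y) → (∀ x : ℝ, a < x → x < g x) →
      Starshaped a (fun n x => g^[n] x) ∧ ExpLe a (fun n x => g^[n] x) 0) := by
  obtain ⟨e, he1, he2, he3⟩ := FewViolators.result.1
  have hexpo : ∀ n : ℕ, 0 ≤ expo n := fun n => by
    unfold expo
    positivity
  refine ⟨⟨fun n => max (e n) 0, fun n => le_max_right _ _, fun n hn => max_le (he2 n hn) (hexpo n),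
    fun c hc => ?_, fun a f τ θ hv hτ hE hθ n hn κ hκ => ?_⟩, fun a f τ θ hv hτ hE hθ => ?_,
    Pool.Agent.R482.ST.ex_mul, Pool.Agent.R482.ST.ex_pow,
    Pool.Agent.R482.ST.ex_orbit⟩
  · have hc0 : 0 < c := lt_trans (by
      have := Real.log_pos (by norm_num : (1 : ℝ) < 2)
      positivity) hc
    filter_upwards [he1 c hc] with n hn
    exact max_le hn (by positivity)
  · obtain ⟨E, h1, h2⟩ := win hn hκ (he3 n hn κ · · hκ ·) hv hτ hE hθ
    refine ⟨E, h1, fun α hα hαE c κ' => ?_⟩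
    obtain ⟨k₀, hk⟩ := h2 α hα hαE c κ'
    refine ⟨k₀, fun k hk1 K hK x hd hx0 hx1 hw => ?_⟩
    by_contra hcon
    push Not at hcon
    refine absurd (hk k hk1 ⟨⟨K, hK⟩, x⟩ ⟨hd, hx0, hx1, ?_⟩) (not_lt.2 hw)
    show -c + κ * (rootDisc K + conductor ![x, 1 - x, -1]) < height ![x, 1 - x, -1]
    linarith
  · have hall : ∀ n m : ℕ, ∃ E : Set ℝ,
        dimH E ≤ ENNReal.ofReal ((max (e (n + 2)) 0 / (((n + 2 : ℕ) : ℝ) + 1) * (1 / ((m : ℝ) + 1)) + τ) / (1 - θ)) ∧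
        ∀ α : ℝ, a < α → α ∉ E → ∀ c κ' : ℝ, ∃ k₀ : ℕ, ∀ k : ℕ, k₀ ≤ k → ∀ p ∈ Exc (n + 2) ((m : ℝ) + 1) (-c),
          κ' * (f k α) ^ θ < |Real.exp (ht p) ^ ((n + 2) * ((n + 2) + 1)) - f k α| := by
      intro n m
      have hm0 : (0 : ℝ) < (m : ℝ) + 1 := by positivity
      obtain ⟨E, h1, h2⟩ := win (n := n + 2) (by omega) hm0
        (he3 (n + 2) (by omega) ((m : ℝ) + 1) · · hm0 ·) hv hτ hE hθ
      refine ⟨E, h1.trans (le_of_eq ?_), h2⟩
      congr 2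
      field_simp
    choose G hG1 hG2 using hall
    refine ⟨⋃ n, ⋂ m, G n m, ?_, fun α hα hαE κ' n hn => ?_⟩
    · rw [dimH_iUnion]
      refine iSup_le fun n => ?_
      have hlim : Tendsto (fun m : ℕ => ENNReal.ofReal
          ((max (e (n + 2)) 0 / (((n + 2 : ℕ) : ℝ) + 1) * (1 / ((m : ℝ) + 1)) + τ) / (1 - θ))) atTop
          (𝓝 (ENNReal.ofReal ((max (e (n + 2)) 0 / (((n + 2 : ℕ) : ℝ) + 1) * 0 + τ) / (1 - θ)))) :=
        ENNReal.tendsto_ofReal (((tendsto_one_div_add_atTop_nhds_zero_nat.const_mul _).add_const τ).div_const (1 - θ))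
      rw [mul_zero, zero_add] at hlim
      exact ge_of_tendsto' hlim fun m => (dimH_mono (Set.iInter_subset _ m)).trans (hG1 n m)
    · obtain ⟨n, rfl⟩ : ∃ m, n = m + 2 := ⟨n - 2, by omega⟩
      have h1 : α ∉ ⋂ m, G n m := fun h => hαE (Set.mem_iUnion.2 ⟨n, h⟩)
      rw [Set.mem_iInter] at h1
      push Not at h1
      obtain ⟨m, hm⟩ := h1
      obtain ⟨k₀, hk⟩ := hG2 n m α hα hm 0 κ'
      obtain ⟨C, hC0, hC⟩ : ∃ C : ℝ, 0 ≤ C ∧ ∀ k : ℕ, k < k₀ → f k α + |κ' * (f k α) ^ θ| ≤ C := by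
        have hpos : ∀ i, 0 ≤ f i α + |κ' * (f i α) ^ θ| := fun i => by
          have := (hv.2 i α α hα le_rfl).1
          positivity
        exact ⟨∑ k ∈ Finset.range k₀, (f k α + |κ' * (f k α) ^ θ|), Finset.sum_nonneg fun i _ => hpos i, fun k hk =>
          Finset.single_le_sum (f := fun k => f k α + |κ' * (f k α) ^ θ|) (fun i _ => hpos i) (Finset.mem_range.2 hk)⟩
      refine ⟨(m : ℝ) + 1, C, fun k K hK x hd hx0 hx1 hw => ?_⟩
      have hnn := nonneg ![x, 1 - x, -1]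
      have hm0 : (0 : ℝ) < (m : ℝ) + 1 := by positivity
      have hmul : 0 ≤ ((m : ℝ) + 1) * (rootDisc K + conductor ![x, 1 - x, -1]) := mul_nonneg hm0.le hnn
      rcases Nat.lt_or_ge k k₀ with hlt | hge
      · rcases le_or_gt (height ![x, 1 - x, -1]) 0 with h0 | h0
        · linarith
        · have h3 : Real.exp (height ![x, 1 - x, -1]) ^ ((n + 2) * ((n + 2) + 1)) ≤ C := by
            have := (abs_le.1 hw).2
            have := hC k hlt
            have := le_abs_self (κ' * (f k α) ^ θ)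
            linarith
          have h4 : 1 ≤ Real.exp (height ![x, 1 - x, -1]) := Real.one_le_exp h0.le
          have h5 : Real.exp (height ![x, 1 - x, -1]) ≤
              Real.exp (height ![x, 1 - x, -1]) ^ ((n + 2) * ((n + 2) + 1)) :=
            le_self_pow₀ h4 (by positivity)
          have h6 := Real.add_one_le_exp (height ![x, 1 - x, -1])
          linarith
      · by_contra hcon
        push Not at hcon
        refine absurd (hk k hge ⟨⟨K, hK⟩, x⟩ ⟨hd, hx0, hx1, ?_⟩) (not_lt.2 hw)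
        show -0 + ((m : ℝ) + 1) * (rootDisc K + conductor ![x, 1 - x, -1]) < height ![x, 1 - x, -1]
        linarith

end Pool.Agent.Results.MP_6e34ef_nt.StarshapedAbc
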